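import Pool.Agent.H24.CX.Ug

/-!
# CX.Gen : generators and balls

`aug_gen`: `u g ∈ span (u '' S) ⊔ Δ ^ 2` for all `g`, by `Subgroup.closure_induction` (`u_mul_mod`, `u_inv_mod` with `n = 1`, `InD_one`).
`ball_span`: first `Δ ^ n ≤ span {(l.map (u p)).prod | l a list of n elements of S} ⊔ Δ ^ (n + 1)` (`n ≥ 1`, induction as usual), and such a product is in `span (of '' ball S n)` (expand `(g₁ - 1) ⋯ (g_n - 1)`: the span of `of '' ball S n`
times `u s` is in the span of `of '' ball S (n + 1)`). Then `⊤ = span {1} ⊔ Δ` (`of g = 1 + u g`) and by induction `⊤ ≤ span (of '' ball S r) ⊔ Δ ^ (r + 1)`.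
`ball_finite`: `ball S r` is the image of the lists of length `≤ r` over `S`; induction on `r` (`ball S (r + 1) ⊆ {1} ∪ image2 (· * ·) S (ball S r)`).
-/

set_option autoImplicit false

namespace Pool.Agent.H24.CX

open Pool.Agent.H67.PG

variable {p : ℕ} {G : Type} [Group G]

private noncomputable abbrev Gen_B (p : ℕ) {G : Type} [Group G] (S : Set G) (r : ℕ) :
    Submodule (ZMod p) (MonoidAlgebra (ZMod p) G) :=
  Submodule.span (ZMod p) (MonoidAlgebra.of (ZMod p) G '' ball S r)

private theorem Gen_mul (S : Set G) (m n : ℕ) : Gen_B p S m * Gen_B p S n ≤ Gen_B p S (m + n) := by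
  rw [Submodule.span_mul_span, Submodule.span_le]
  rintro _ ⟨_, ⟨g, ⟨l, hl, hlS, rfl⟩, rfl⟩, _, ⟨h, ⟨l', hl', hlS', rfl⟩, rfl⟩, rfl⟩
  refine Submodule.subset_span ⟨(l ++ l').prod, ⟨l ++ l', ?_, ?_, rfl⟩, ?_⟩
  · rw [List.length_append]
    omega
  · intro x hx
    rcases List.mem_append.1 hx with hx | hx
    · exact hlS x hx
    · exact hlS' x hx
  · show MonoidAlgebra.of (ZMod p) G (l ++ l').prod =
      MonoidAlgebra.of (ZMod p) G l.prod * MonoidAlgebra.of (ZMod p) G l'.prod
    rw [List.prod_append, map_mul]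

private theorem Gen_one (S : Set G) (r : ℕ) : (1 : MonoidAlgebra (ZMod p) G) ∈ Gen_B p S r := by
  refine Submodule.subset_span ⟨1, ⟨[], ?_, ?_, rfl⟩, map_one _⟩
  · rw [List.length_nil]
    omega
  · intro x hx
    exact absurd hx List.not_mem_nil

private theorem Gen_P1 (S : Set G) : Submodule.span (ZMod p) (u p '' S) ≤ Gen_B p S 1 := by
  rw [Submodule.span_le]
  rintro _ ⟨s, hs, rfl⟩
  show u p s ∈ Gen_B p S 1
  rw [u]
  refine sub_mem (Submodule.subset_span ⟨s, ⟨[s], ?_, ?_, ?_⟩, rfl⟩) (Gen_one S 1)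
  · simp
  · intro x hx
    rw [List.mem_singleton.1 hx]
    exact hs
  · simp

private theorem Gen_P1n (S : Set G) (n : ℕ) :
    Submodule.span (ZMod p) (u p '' S) ^ n ≤ Gen_B p S n := by
  induction n with
  | zero =>
    rw [pow_zero, Submodule.one_le]
    exact Gen_one S 0
  | succ n ih =>
    rw [pow_succ]
    exact (mul_le_mul' ih (Gen_P1 S)).trans (Gen_mul S n 1)

theorem aug_gen {S : Set G} (hS : Subgroup.closure S = ⊤) :
    Aug p G ≤ Submodule.span (ZMod p) (u p '' S) ⊔ Aug p G ^ 2 := by
  rw [Aug, Submodule.span_le]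
  rintro _ ⟨g, rfl⟩
  have key : ∀ g ∈ Subgroup.closure S,
      u p g ∈ Submodule.span (ZMod p) (u p '' S) ⊔ Aug p G ^ 2 := by
    intro g hg
    induction hg using Subgroup.closure_induction with
    | mem x hx => exact Submodule.mem_sup_left (Submodule.subset_span ⟨x, hx, rfl⟩)
    | one =>
      rw [u_one]
      exact zero_mem _
    | mul x y _ _ hx hy =>
      have h1 : u p (x * y) - (u p x + u p y) ∈ Aug p G ^ 2 :=
        u_mul_mod (le_refl 1) (InD_one x) (InD_one y)
      have h2 : u p (x * y) = (u p (x * y) - (u p x + u p y)) + (u p x + u p y) := by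
        rw [sub_add_cancel]
      rw [h2]
      exact add_mem (Submodule.mem_sup_right h1) (add_mem hx hy)
    | inv x _ hx =>
      have h1 : u p x⁻¹ + u p x ∈ Aug p G ^ 2 := u_inv_mod (le_refl 1) (InD_one x)
      have h2 : u p x⁻¹ = (u p x⁻¹ + u p x) - u p x := by
        rw [add_sub_cancel_right]
      rw [h2]
      exact sub_mem (Submodule.mem_sup_right h1) hx
  exact key g (by rw [hS]; trivial)

theorem ball_mono {S : Set G} {r r' : ℕ} (h : r ≤ r') : ball S r ⊆ ball S r' := by
  rintro g ⟨l, hl, hlS, rfl⟩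
  exact ⟨l, hl.trans h, hlS, rfl⟩

theorem ball_finite {S : Set G} (hS : S.Finite) (r : ℕ) : (ball S r).Finite := by
  induction r with
  | zero =>
    refine (Set.finite_singleton (1 : G)).subset ?_
    rintro g ⟨l, hl, _, rfl⟩
    have h1 : l = [] := List.length_eq_zero_iff.1 (by omega)
    rw [h1, List.prod_nil]
    rfl
  | succ r ih =>
    refine ((Set.finite_singleton (1 : G)).union (hS.image2 (fun a b => a * b) ih)).subset ?_
    rintro g ⟨l, hl, hlS, rfl⟩
    cases l with
    | nil =>
      left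
      rw [List.prod_nil]
      rfl
    | cons a l =>
      right
      rw [List.length_cons] at hl
      refine ⟨a, hlS a List.mem_cons_self, l.prod, ⟨l, by omega, ?_, rfl⟩, ?_⟩
      · intro x hx
        exact hlS x (List.mem_cons_of_mem a hx)
      · rw [List.prod_cons]

theorem ball_span {S : Set G} (hS : Subgroup.closure S = ⊤) (r : ℕ) :
    (⊤ : Submodule (ZMod p) (MonoidAlgebra (ZMod p) G)) ≤
      Submodule.span (ZMod p) (MonoidAlgebra.of (ZMod p) G '' ball S r) ⊔ Aug p G ^ (r + 1) := by
  have hP : Submodule.span (ZMod p) (u p '' S) ≤ Aug p G := by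
    rw [Submodule.span_le]
    rintro _ ⟨s, _, rfl⟩
    exact u_mem s
  have hΔ : ∀ n : ℕ, Aug p G ^ n ≤ Submodule.span (ZMod p) (u p '' S) ^ n ⊔ Aug p G ^ (n + 1) := by
    intro n
    induction n with
    | zero =>
      rw [pow_zero, pow_zero]
      exact le_sup_left
    | succ n ih =>
      have h1 : Aug p G ^ (n + 1) ≤
          (Submodule.span (ZMod p) (u p '' S) ^ n ⊔ Aug p G ^ (n + 1)) *
            (Submodule.span (ZMod p) (u p '' S) ⊔ Aug p G ^ 2) := by
        rw [pow_succ]
        exact mul_le_mul' ih (aug_gen hS)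
      refine h1.trans ?_
      rw [Submodule.sup_mul, Submodule.mul_sup]
      refine sup_le (sup_le ?_ ?_) ?_
      · rw [← pow_succ]
        exact le_sup_left
      · refine le_sup_of_le_right ?_
        refine (mul_le_mul' (pow_le_pow_left' hP n) le_rfl).trans ?_
        rw [← pow_add]
      · refine le_sup_of_le_right ?_
        have h2 : Aug p G ^ 2 ≤ Aug p G := by
          have h3 : Aug p G ^ 2 ≤ Aug p G ^ 1 := aug_anti (by omega) (by omega)
          rwa [pow_one] at h3
        refine (mul_le_mul' le_rfl (sup_le hP h2)).trans ?_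
        rw [← pow_succ]
  induction r with
  | zero =>
    rw [← span_of_top (p := p) (G := G), Submodule.span_le]
    rintro _ ⟨g, rfl⟩
    show MonoidAlgebra.of (ZMod p) G g ∈ _
    rw [of_eq, zero_add, pow_one]
    exact add_mem (Submodule.mem_sup_right (u_mem g)) (Submodule.mem_sup_left (Gen_one S 0))
  | succ r ih =>
    refine ih.trans (sup_le ?_ ?_)
    · refine le_sup_of_le_left (Submodule.span_mono (Set.image_mono (ball_mono (by omega))))
    · refine (hΔ (r + 1)).trans (sup_le ?_ le_sup_right)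
      exact le_sup_of_le_left (Gen_P1n S (r + 1))

end Pool.Agent.H24.CX
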