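import Pool.Agent.H24.CX.Jid
import Pool.Agent.H24.CX.Gen

/-!
# CX.BalQ : the order of `G / D_(m+1)` is at most the number of elements of a ball

PROOF. `Q = G ⧸ Dn p G m` is finite (`Dn_index`), `φ = mk'`, `amap p φ` is onto (`MonoidAlgebra.mapDomain` of a surjection; every `of q` is in the range). By `ball_span` and `h` every element of `F_p[G]` is a combination of elements `of g`, `g ∈ ball S r`, plus an element of the kernel; so `F_p[Q]` is spanned by the set
`{of (φ g) | g ∈ ball S r}` of at most `(ball S r).ncard` elements (`ball_finite`), so `finrank F_p[Q] = Nat.card Q ≤ (ball S r).ncard` (`finrank_span_finset_le_card`; `MonoidAlgebra` is `Q →₀ ZMod p`, `Module.finrank_finsupp_self`).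
-/

set_option autoImplicit false

namespace Pool.Agent.H24.CX

open Pool.Agent.H67.PG

variable {p : ℕ} [Fact p.Prime] {G : Type} [Group G]

theorem index_le_ball {S : Set G} (hSf : S.Finite) (hS : Subgroup.closure S = ⊤) {m r : ℕ}
    (h : Aug p G ^ (r + 1) ≤ Jm p G m) : (Dn p G m).index ≤ (ball S r).ncard := by
  classical
  have hfin : Finite (G ⧸ Dn p G m) :=
    (Nat.finite_of_card_ne_zero (show Nat.card (G ⧸ Dn p G m) ≠ 0 from Dn_index hSf hS m))
  let _ : Fintype (G ⧸ Dn p G m) := Fintype.ofFinite _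
  set φ : G →* G ⧸ Dn p G m := QuotientGroup.mk' (Dn p G m) with hφ
  have hof : ∀ g : G, amap p φ (MonoidAlgebra.of (ZMod p) G g) =
      MonoidAlgebra.of (ZMod p) (G ⧸ Dn p G m) (φ g) := by
    intro g
    rw [of_eq, map_add, amap_u, map_one, ← of_eq]
  have hbf : (ball S r).Finite := ball_finite hSf r
  let T : Finset (MonoidAlgebra (ZMod p) (G ⧸ Dn p G m)) :=
    hbf.toFinset.image (fun g => MonoidAlgebra.of (ZMod p) (G ⧸ Dn p G m) (φ g))
  have hT : (T : Set (MonoidAlgebra (ZMod p) (G ⧸ Dn p G m))) =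
      (fun g => MonoidAlgebra.of (ZMod p) (G ⧸ Dn p G m) (φ g)) '' ball S r := by
    simp [T]
  have hmem : ∀ x : MonoidAlgebra (ZMod p) G,
      amap p φ x ∈ Submodule.span (ZMod p) (T : Set (MonoidAlgebra (ZMod p) (G ⧸ Dn p G m))) := by
    intro x
    have hx := ball_span (p := p) hS r (Submodule.mem_top (x := x))
    obtain ⟨y, hy, z, hz, rfl⟩ := Submodule.mem_sup.1 hx
    have hz0 : amap p φ z = 0 := h hz
    rw [map_add, hz0, add_zero]
    clear hx hz hz0
    induction hy using Submodule.span_induction with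
    | mem y hy =>
      obtain ⟨g, hg, rfl⟩ := hy
      refine Submodule.subset_span ?_
      rw [hT, hof]
      exact ⟨g, hg, rfl⟩
    | zero => rw [map_zero]; exact zero_mem _
    | add a b _ _ ha hb => rw [map_add]; exact add_mem ha hb
    | smul c a _ ha => rw [map_smul]; exact Submodule.smul_mem _ _ ha
  have htop : Submodule.span (ZMod p) (T : Set (MonoidAlgebra (ZMod p) (G ⧸ Dn p G m))) = ⊤ := by
    rw [eq_top_iff, ← span_of_top (p := p) (G := G ⧸ Dn p G m), Submodule.span_le]
    rintro _ ⟨q, rfl⟩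
    obtain ⟨g, rfl⟩ := QuotientGroup.mk'_surjective (Dn p G m) q
    have h1 := hmem (MonoidAlgebra.of (ZMod p) G g)
    rw [hof] at h1
    exact h1
  have hcard : Module.finrank (ZMod p) (MonoidAlgebra (ZMod p) (G ⧸ Dn p G m)) =
      Nat.card (G ⧸ Dn p G m) := by
    rw [Nat.card_eq_fintype_card]
    rw [(MonoidAlgebra.coeffLinearEquiv (S := ZMod p) (M := G ⧸ Dn p G m) (ZMod p)).finrank_eq]
    exact Module.finrank_finsupp_self (ZMod p)
  have h1 : Module.finrank (ZMod p) (MonoidAlgebra (ZMod p) (G ⧸ Dn p G m)) ≤ T.card := by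
    have h2 := finrank_span_finset_le_card (R := ZMod p) T
    rw [Set.finrank, htop, finrank_top] at h2
    exact h2
  have h3 : T.card ≤ (ball S r).ncard := by
    rw [Set.ncard_eq_toFinset_card _ hbf]
    exact Finset.card_image_le
  show Nat.card (G ⧸ Dn p G m) ≤ _
  rw [← hcard]
  exact h1.trans h3

end Pool.Agent.H24.CX
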