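import Pool.Agent.H24.CX.Ug

/-!
# CX.Bas : a basis of `D_(n+1) / D_(n+2)`

PROOF. `B = A ⧸ Δ ^ (n + 2)` is a finite `F_p`-space, `π : A → B`. Let `U = span (π (u g) | g ∈ D_(n+1))`; choose a subset `X` of `D_(n+1)` such that the `π (u x)`, `x ∈ X`, are distinct and a basis of `U` (`exists_linearIndependent`-type lemma applied to the spanning family; `X` is finite). The second claim: `π (u g) ∈ span π (u '' X)`, so
`u g ∈ span (u '' X) ⊔ Δ ^ (n + 2)`. Third claim: `(Dn (n + 1)).index = (Dn n).index * (Dn (n + 1)).relIndex (Dn n)` (`Subgroup.relIndex_mul_index`), so `p ^ X.card ≤ (Dn (n + 1)).relIndex (Dn n)` is enough. The map `(X → Fin p) → Dn n ⧸ ..`, `e ↦ ∏ x ^ e x` (product of a list enumerating `X`) is injective: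
`g ↦ π (u g)` is additive on `D_(n+1)` (`u_mul_mod`), has the same value at elements congruent modulo `D_(n+2)`, and its value at `∏ x ^ e x` is `∑ e x • π (u x)`, so `e` is determined by linear independence. (Or: `g ↦ π (u g)` is a homomorphism from `D_(n+1)` to `Multiplicative B` with kernel `D_(n+2)`,
its image is an additive subgroup, so a subspace over `ZMod p`, it is `U`; so `relIndex = card U = p ^ finrank U = p ^ X.card`. This is the better proof: `AddSubgroup.toZModSubmodule`.)
-/

set_option autoImplicit false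

namespace Pool.Agent.H24.CX

open Pool.Agent.H67.PG

variable {p : ℕ} [Fact p.Prime] {G : Type} [Group G]

/-- `g ↦ π (u g)` on `Dn n` -/
private noncomputable def basHom (n : ℕ) :
    Dn p G n →* Multiplicative (MonoidAlgebra (ZMod p) G ⧸ Aug p G ^ (n + 2)) where
  toFun g := Multiplicative.ofAdd ((Aug p G ^ (n + 2)).mkQ (u p (g : G)))
  map_one' := by
    rw [OneMemClass.coe_one, u_one, map_zero, ofAdd_zero]
  map_mul' g h := by
    rw [← ofAdd_add, ← map_add]
    congr 1
    rw [← sub_eq_zero, ← map_sub, Submodule.mkQ_apply, Submodule.Quotient.mk_eq_zero]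
    exact u_mul_mod (by omega) g.2 h.2

theorem exists_basis (n : ℕ) (hfin : Finite (MonoidAlgebra (ZMod p) G ⧸ Aug p G ^ (n + 2)))
    (hi : (Dn p G (n + 1)).index ≠ 0) :
    ∃ Y : Finset G, (∀ x ∈ Y, InD p (n + 1) x) ∧
      (∀ g : G, InD p (n + 1) g → u p g ∈ Submodule.span (ZMod p) (u p '' (Y : Set G)) ⊔ Aug p G ^ (n + 2)) ∧
      p ^ Y.card * (Dn p G n).index ≤ (Dn p G (n + 1)).index := by
  classical
  set B := MonoidAlgebra (ZMod p) G ⧸ Aug p G ^ (n + 2) with hB
  set v : Dn p G n → B := fun g => (Aug p G ^ (n + 2)).mkQ (u p (g : G)) with hv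
  obtain ⟨κ, a, ha, hspan, hli⟩ := exists_linearIndependent' (ZMod p) v
  have : Finite κ := Finite.of_injective (v ∘ a) hli.injective
  have := Fintype.ofFinite κ
  have : Module.Finite (ZMod p) B := Module.Finite.of_finite
  have hinj : Function.Injective (fun i => ((a i : Dn p G n) : G)) :=
    Subtype.val_injective.comp ha
  set Y : Finset G := Finset.univ.image (fun i => ((a i : Dn p G n) : G)) with hY
  have hYcard : Y.card = Fintype.card κ := by
    rw [hY, Finset.card_image_of_injective _ hinj, Finset.card_univ]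
  -- the image is a subspace
  set Rg : AddSubgroup B := Subgroup.toAddSubgroup' (basHom (p := p) (G := G) n).range with hRg
  have hmem : ∀ x : B, x ∈ Rg ↔ ∃ g : Dn p G n, v g = x := by
    intro x
    constructor
    · rintro ⟨g, hg⟩
      exact ⟨g, Multiplicative.ofAdd.injective hg⟩
    · rintro ⟨g, hg⟩
      exact ⟨g, by rw [← hg]; rfl⟩
  set U : Submodule (ZMod p) B := AddSubgroup.toZModSubmodule p Rg with hU
  have hUmem : ∀ x : B, x ∈ U ↔ ∃ g : Dn p G n, v g = x := fun x => hmem x
  have hUspan : U = Submodule.span (ZMod p) (Set.range v) := by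
    apply le_antisymm
    · intro x hx
      obtain ⟨g, rfl⟩ := (hUmem x).1 hx
      exact Submodule.subset_span ⟨g, rfl⟩
    · rw [Submodule.span_le]
      rintro _ ⟨g, rfl⟩
      exact (hUmem _).2 ⟨g, rfl⟩
  refine ⟨Y, ?_, ?_, ?_⟩
  · intro x hx
    rw [hY, Finset.mem_image] at hx
    obtain ⟨i, _, rfl⟩ := hx
    exact (a i).2
  · intro g hg
    have h1 : v ⟨g, hg⟩ ∈ Submodule.span (ZMod p) (Set.range (v ∘ a)) := by
      rw [hspan]
      exact Submodule.subset_span ⟨_, rfl⟩
    have h2 : Set.range (v ∘ a) = (Aug p G ^ (n + 2)).mkQ '' (u p '' (Y : Set G)) := by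
      ext x
      constructor
      · rintro ⟨i, rfl⟩
        refine ⟨u p ((a i : Dn p G n) : G), ⟨_, ?_, rfl⟩, rfl⟩
        rw [hY, Finset.coe_image]
        exact ⟨i, Finset.mem_coe.2 (Finset.mem_univ i), rfl⟩
      · rintro ⟨_, ⟨y, hy, rfl⟩, rfl⟩
        rw [hY, Finset.coe_image] at hy
        obtain ⟨i, _, rfl⟩ := hy
        exact ⟨i, rfl⟩
    rw [h2, ← Submodule.map_span] at h1
    obtain ⟨x, hx, hxg⟩ := h1
    have h3 : u p g - x ∈ Aug p G ^ (n + 2) := by
      have h4 : (Aug p G ^ (n + 2)).mkQ (u p g - x) = 0 := by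
        rw [map_sub, hxg, sub_self]
      rwa [Submodule.mkQ_apply, Submodule.Quotient.mk_eq_zero] at h4
    rw [show u p g = x + (u p g - x) by abel]
    exact Submodule.add_mem_sup hx h3
  · have hle : Dn p G (n + 1) ≤ Dn p G n := fun g hg =>
      (mem_Dn p).2 (InD_mono (m := n + 1) (n := n + 1 + 1) (by omega) (by omega) ((mem_Dn p).1 hg))
    have hker : (Dn p G (n + 1)).subgroupOf (Dn p G n) = (basHom (p := p) (G := G) n).ker := by
      ext g
      rw [Subgroup.mem_subgroupOf, MonoidHom.mem_ker]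
      show u p (g : G) ∈ Aug p G ^ (n + 1 + 1) ↔
        Multiplicative.ofAdd ((Aug p G ^ (n + 2)).mkQ (u p (g : G))) = 1
      rw [ofAdd_eq_one, Submodule.mkQ_apply, Submodule.Quotient.mk_eq_zero]
    have hrel : (Dn p G (n + 1)).relIndex (Dn p G n) = p ^ Y.card := by
      rw [Subgroup.relIndex, hker, Subgroup.index_ker]
      have h5 : Nat.card (basHom (p := p) (G := G) n).range = Nat.card U := rfl
      rw [h5, Module.natCard_eq_pow_finrank (K := ZMod p), Nat.card_zmod, hYcard]
      congr 1
      rw [hUspan, ← hspan, finrank_span_eq_card hli]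
    rw [← hrel, Subgroup.relIndex_mul_index hle]

end Pool.Agent.H24.CX
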