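import Pool.Agent.H24.CX.Ug

/-!
# CX.CmA : iterated commutators

`Cm_pos`, `Cm_InD`: induction (`InD_one`, `InD_cm`). `Cm_finite`: strong induction on `w`: `{c | Cm S w c} ⊆ S ∪ ⋃ i ∈ Finset.range w (i ≥ 1), image2 cm {a | Cm S i a} {b | Cm S (w - i) b}` (`cases`/`generalize` on the index; both weights are `≥ 1`, so smaller than `w`).
-/

set_option autoImplicit false

namespace Pool.Agent.H24.CX

open Pool.Agent.H67.PG

variable {p : ℕ} {G : Type} [Group G]

theorem Cm_pos {S : Set G} {w : ℕ} {c : G} (h : Cm S w c) : 1 ≤ w := by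
  induction h with
  | base _ => exact le_refl 1
  | comm _ _ ih1 ih2 => omega

theorem Cm_InD {S : Set G} {w : ℕ} {c : G} (h : Cm S w c) : InD p w c := by
  induction h with
  | base _ => exact InD_one _
  | comm ha _ ih1 ih2 => exact InD_cm (Cm_pos ha) ih1 ih2

theorem Cm_finite {S : Set G} (hS : S.Finite) (w : ℕ) : {c : G | Cm S w c}.Finite := by
  induction w using Nat.strong_induction_on with
  | _ w ih =>
    have key : {c : G | Cm S w c} ⊆ S ∪ ⋃ q ∈ (((Finset.range w) ×ˢ (Finset.range w) : Finset (ℕ × ℕ)) : Set (ℕ × ℕ)),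
        Set.image2 cm {a | Cm S q.1 a} {b | Cm S q.2 b} := by
      intro c hc
      cases hc with
      | base h => exact Or.inl h
      | comm ha hb =>
        rename_i a b i j
        refine Or.inr ?_
        have h1 := Cm_pos ha
        have h2 := Cm_pos hb
        refine Set.mem_biUnion (x := (i, j)) ?_ ⟨a, ha, b, hb, rfl⟩
        rw [Finset.mem_coe, Finset.mem_product, Finset.mem_range, Finset.mem_range]
        constructor
        · show i < i + j
          omega
        · show j < i + j
          omega
    refine Set.Finite.subset (Set.Finite.union hS (Set.Finite.biUnion (Finset.finite_toSet _) ?_)) key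
    intro q hq
    rw [Finset.mem_coe, Finset.mem_product, Finset.mem_range, Finset.mem_range] at hq
    exact Set.Finite.image2 cm (ih _ hq.1) (ih _ hq.2)

end Pool.Agent.H24.CX
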