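import Pool.Agent.H24.CX.Defs

/-!
# CX.Lie : commutators of left normed commutators

`x ∈ Lsp T m`, `y ∈ Lsp T n` implies `x y - y x ∈ Lsp T (m + n + 1)`. PROOF. Induction on `n` for all `m`, `x`: `n = 0`: `y` is a combination of elements `t ∈ T` (`Submodule.span_induction` in `y`) and `x t - t x ∈ Lsp T (m + 1)` by definition.
`n + 1`: by span induction `y = z t - t z`, `z ∈ Lsp T n`, `t ∈ T`; `[x, [z, t]] = [[x, z], t] - [[x, t], z]`; `[x, z] ∈ Lsp (m + n + 1)` by induction so `[[x, z], t] ∈ Lsp (m + n + 2)`; `[x, t] ∈ Lsp (m + 1)`, so `[[x, t], z] ∈ Lsp ((m + 1) + n + 1)` by induction.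
-/

set_option autoImplicit false

namespace Pool.Agent.H24.CX

variable {F A : Type*} [Field F] [Ring A] [Algebra F A] {T : Set A}

theorem Lsp_comm {m n : ℕ} {x y : A} (hx : x ∈ Lsp (F := F) T m) (hy : y ∈ Lsp (F := F) T n) :
    x * y - y * x ∈ Lsp (F := F) T (m + n + 1) := by
  induction n generalizing m x y with
  | zero =>
    change y ∈ Submodule.span F T at hy
    induction hy using Submodule.span_induction with
    | mem t ht => exact Submodule.subset_span ⟨x, hx, t, ht, rfl⟩
    | zero => simp
    | add a b _ _ ha hb =>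
      have e : x * (a + b) - (a + b) * x = (x * a - a * x) + (x * b - b * x) := by noncomm_ring
      rw [e]
      exact Submodule.add_mem _ ha hb
    | smul c a _ ha =>
      have e : x * (c • a) - (c • a) * x = c • (x * a - a * x) := by
        rw [mul_smul_comm, smul_mul_assoc, smul_sub]
      rw [e]
      exact Submodule.smul_mem _ c ha
  | succ n ih =>
    change y ∈ Submodule.span F {y | ∃ x ∈ Lsp (F := F) T n, ∃ t ∈ T, y = x * t - t * x} at hy
    induction hy using Submodule.span_induction with
    | mem y hy =>
      obtain ⟨z, hz, t, ht, rfl⟩ := hy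
      have h1 : (x * z - z * x) * t - t * (x * z - z * x) ∈ Lsp (F := F) T (m + (n + 1) + 1) :=
        Submodule.subset_span ⟨_, ih hx hz, t, ht, rfl⟩
      have h3 : x * t - t * x ∈ Lsp (F := F) T (m + 1) := Submodule.subset_span ⟨x, hx, t, ht, rfl⟩
      have h4 := ih h3 hz
      rw [show m + 1 + n + 1 = m + (n + 1) + 1 by omega] at h4
      have e : x * (z * t - t * z) - (z * t - t * z) * x =
          ((x * z - z * x) * t - t * (x * z - z * x)) - ((x * t - t * x) * z - z * (x * t - t * x)) := by
        noncomm_ring
      rw [e]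
      exact Submodule.sub_mem _ h1 h4
    | zero => simp
    | add a b _ _ ha hb =>
      have e : x * (a + b) - (a + b) * x = (x * a - a * x) + (x * b - b * x) := by noncomm_ring
      rw [e]
      exact Submodule.add_mem _ ha hb
    | smul c a _ ha =>
      have e : x * (c • a) - (c • a) * x = c • (x * a - a * x) := by
        rw [mul_smul_comm, smul_mul_assoc, smul_sub]
      rw [e]
      exact Submodule.smul_mem _ c ha

end Pool.Agent.H24.CX
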