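import Pool.Agent.H24.CX.CmA
import Pool.Agent.H24.CX.Lie

/-!
# CX.CmB : group commutators and ring commutators

`T = u p '' S`.
`Cm_Lsp`: `u p c ∈ Lsp T (w - 1) ⊔ Δ ^ (w + 1)`: induction on `Cm`: `base`: clear. `comm`: `u a = l + d`, `u b = l' + d'` with `l ∈ Lsp T (i - 1)`, `d ∈ Δ ^ (i + 1)`; also `l ∈ Δ ^ i` (as `u a ∈ Δ ^ i`, `Cm_InD`, or `Lsp_aug`); `u a * u b - u b * u a = (l l' - l' l) + (element of Δ ^ (i + j + 1))`,
`l l' - l' l ∈ Lsp T (i - 1 + (j - 1) + 1) = Lsp T (i + j - 1)` (`Lsp_comm`), and `u (cm a b)` differs from it by an element of `Δ ^ (i + j + 1)` (`u_cm_mod`).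
`Lsp_aug`: induction on `n`: span induction. `Lsp_Cm`: `Lsp T n ≤ span {u c | Cm S (n + 1) c} ⊔ Δ ^ (n + 2)`: induction on `n`; for `x = u c + d` (linear combination) and `t = u s`: `u c u s - u s u c = u (cm c s) + ..` (`u_cm_mod`, `Cm.comm`, `Cm.base`).
`Lsp_small`: `Lsp T (i - 1) ≤ span {u c | Cm S i c} ⊔ Δ ^ (i + 1) ≤ Δ ^ (i + 1)` by `hi` and `Cm_InD`; then by induction `Lsp T n ≤ Δ ^ (n + 2)` for `n ≥ i - 1` (`x ∈ Δ ^ (n + 2)`, `t ∈ Δ`: `x t - t x ∈ Δ ^ (n + 3)`).
`Cm_small`: `Cm_Lsp` and `Lsp_small`.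
-/

set_option autoImplicit false

namespace Pool.Agent.H24.CX

open Pool.Agent.H67.PG

variable {p : ℕ} [Fact p.Prime] {G : Type} [Group G]

private theorem CmB_br {m n k : ℕ} (hk : 1 ≤ k) {x y : MonoidAlgebra (ZMod p) G} (hx : x ∈ Aug p G ^ m)
    (hy : y ∈ Aug p G ^ n) (h : k ≤ m + n) : x * y - y * x ∈ Aug p G ^ k := by
  have h1 : x * y ∈ Aug p G ^ k := aug_anti hk h (mul_mem_add hx hy)
  have h2 : y * x ∈ Aug p G ^ k := aug_anti hk (by omega) (mul_mem_add hy hx)
  exact sub_mem h1 h2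

private theorem CmB_us {S : Set G} {t : MonoidAlgebra (ZMod p) G} (ht : t ∈ u p '' S) :
    t ∈ Aug p G ^ 1 := by
  obtain ⟨s, _, rfl⟩ := ht
  rw [pow_one]
  exact u_mem s

theorem Lsp_aug (S : Set G) (n : ℕ) : Lsp (F := ZMod p) (u p '' S) n ≤ Aug p G ^ (n + 1) := by
  induction n with
  | zero =>
    rw [Lsp, Submodule.span_le]
    intro t ht
    exact CmB_us ht
  | succ n ih =>
    rw [Lsp, Submodule.span_le]
    rintro y ⟨x, hx, t, ht, rfl⟩
    exact CmB_br (by omega) (ih hx) (CmB_us ht) (by omega)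

theorem Cm_Lsp {S : Set G} {w : ℕ} {c : G} (h : Cm S w c) :
    u p c ∈ Lsp (F := ZMod p) (u p '' S) (w - 1) ⊔ Aug p G ^ (w + 1) := by
  induction h with
  | base hs => exact Submodule.mem_sup_left (Submodule.subset_span ⟨_, hs, rfl⟩)
  | comm ha hb iha ihb =>
    rename_i a b i j
    have hi := Cm_pos ha
    have hj := Cm_pos hb
    have hA := Cm_InD (p := p) ha
    have hB := Cm_InD (p := p) hb
    obtain ⟨l, hl, d, hd, e1⟩ := Submodule.mem_sup.1 iha
    obtain ⟨l', hl', d', hd', e2⟩ := Submodule.mem_sup.1 ihb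
    have hlA : l ∈ Aug p G ^ i := by
      have h0 := Lsp_aug (p := p) S (i - 1) hl
      rw [show i - 1 + 1 = i by omega] at h0
      exact h0
    have hlB : l' ∈ Aug p G ^ j := by
      have h0 := Lsp_aug (p := p) S (j - 1) hl'
      rw [show j - 1 + 1 = j by omega] at h0
      exact h0
    have h1 : l * l' - l' * l ∈ Lsp (F := ZMod p) (u p '' S) (i + j - 1) := by
      have h0 := Lsp_comm (F := ZMod p) hl hl'
      rw [show i - 1 + (j - 1) + 1 = i + j - 1 by omega] at h0
      exact h0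
    have h2 := u_cm_mod (p := p) hi hA hB
    have h3 : u p (cm a b) = (l * l' - l' * l) + ((l * d' - d' * l) + (d * l' - l' * d) + (d * d' - d' * d)
        - (u p a * u p b - u p b * u p a - u p (cm a b))) := by
      rw [← e1, ← e2]
      noncomm_ring
    rw [h3]
    refine Submodule.add_mem_sup h1 (sub_mem (add_mem (add_mem ?_ ?_) ?_) h2)
    · exact CmB_br (by omega) hlA hd' (by omega)
    · exact CmB_br (by omega) hd hlB (by omega)
    · exact CmB_br (by omega) hd hd' (by omega)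

theorem Lsp_Cm (S : Set G) (n : ℕ) : Lsp (F := ZMod p) (u p '' S) n ≤
    Submodule.span (ZMod p) (u p '' {c | Cm S (n + 1) c}) ⊔ Aug p G ^ (n + 2) := by
  induction n with
  | zero =>
    rw [Lsp, Submodule.span_le]
    rintro t ⟨s, hs, rfl⟩
    exact Submodule.mem_sup_left (Submodule.subset_span ⟨s, Cm.base hs, rfl⟩)
  | succ n ih =>
    rw [Lsp, Submodule.span_le]
    rintro y ⟨x, hx, t, ht, rfl⟩
    obtain ⟨x1, hx1, x2, hx2, e⟩ := Submodule.mem_sup.1 (ih hx)
    obtain ⟨s, hs, rfl⟩ := ht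
    have hs1 : u p s ∈ Aug p G ^ 1 := CmB_us ⟨s, hs, rfl⟩
    have key : ∀ z ∈ Submodule.span (ZMod p) (u p '' {c | Cm S (n + 1) c}),
        z * u p s - u p s * z ∈ Submodule.span (ZMod p) (u p '' {c | Cm S (n + 1 + 1) c}) ⊔
          Aug p G ^ (n + 1 + 2) := by
      intro z hz
      induction hz using Submodule.span_induction with
      | mem z hz =>
        obtain ⟨c, hc, rfl⟩ := hz
        have h1 := u_cm_mod (p := p) (by omega) (Cm_InD (p := p) hc) (InD_one (p := p) s)
        have h2 : u p c * u p s - u p s * u p c =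
            u p (cm c s) + (u p c * u p s - u p s * u p c - u p (cm c s)) := by abel
        rw [h2]
        exact Submodule.add_mem_sup (Submodule.subset_span ⟨_, Cm.comm hc (Cm.base hs), rfl⟩) h1
      | zero =>
        rw [zero_mul, mul_zero, sub_zero]
        exact zero_mem _
      | add z1 z2 _ _ h1 h2 =>
        have h3 : (z1 + z2) * u p s - u p s * (z1 + z2) =
            (z1 * u p s - u p s * z1) + (z2 * u p s - u p s * z2) := by noncomm_ring
        rw [h3]
        exact add_mem h1 h2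
      | smul r z _ h1 =>
        have h3 : (r • z) * u p s - u p s * (r • z) = r • (z * u p s - u p s * z) := by
          rw [smul_mul_assoc, mul_smul_comm, smul_sub]
        rw [h3]
        exact Submodule.smul_mem _ _ h1
    have h4 : x * u p s - u p s * x =
        (x1 * u p s - u p s * x1) + (x2 * u p s - u p s * x2) := by
      rw [← e]
      noncomm_ring
    show x * u p s - u p s * x ∈ _
    rw [h4]
    exact add_mem (key x1 hx1) (Submodule.mem_sup_right (CmB_br (by omega) hx2 hs1 (by omega)))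

theorem Lsp_small {S : Set G} {i : ℕ} (h1 : 1 ≤ i) (hi : ∀ g : G, InD p i g → InD p (i + 1) g) {n : ℕ}
    (hn : i ≤ n + 1) : Lsp (F := ZMod p) (u p '' S) n ≤ Aug p G ^ (n + 2) := by
  have key : ∀ k : ℕ, Lsp (F := ZMod p) (u p '' S) (i - 1 + k) ≤ Aug p G ^ (i - 1 + k + 2) := by
    intro k
    induction k with
    | zero =>
      refine (Lsp_Cm (p := p) S (i - 1)).trans (sup_le ?_ le_rfl)
      rw [Submodule.span_le]
      rintro y ⟨c, hc, rfl⟩
      have h2 : InD p (i - 1 + 1) c := Cm_InD hc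
      rw [show i - 1 + 1 = i by omega] at h2
      have h3 := hi c h2
      show u p c ∈ Aug p G ^ (i - 1 + 2)
      rw [show i - 1 + 2 = i + 1 by omega]
      exact h3
    | succ k ih =>
      rw [← add_assoc, Lsp, Submodule.span_le]
      rintro y ⟨x, hx, t, ht, rfl⟩
      exact CmB_br (by omega) (ih hx) (CmB_us ht) (by omega)
  have h := key (n - (i - 1))
  rw [show i - 1 + (n - (i - 1)) = n by omega] at h
  exact h

/-- if `D_i = D_(i+1)`, iterated commutators of weight `w ≥ i` are in `D_(w+1)` -/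
theorem Cm_small {S : Set G} {i : ℕ} (h1 : 1 ≤ i) (hi : ∀ g : G, InD p i g → InD p (i + 1) g) {w : ℕ}
    {c : G} (h : Cm S w c) (hw : i ≤ w) : InD p (w + 1) c := by
  have h2 := Cm_Lsp (p := p) h
  have h3 : Lsp (F := ZMod p) (u p '' S) (w - 1) ≤ Aug p G ^ (w + 1) := by
    have h4 := Lsp_small (p := p) (S := S) h1 hi (n := w - 1) (by omega)
    rw [show w - 1 + 2 = w + 1 by omega] at h4
    exact h4
  exact (sup_le h3 le_rfl) h2

end Pool.Agent.H24.CX
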