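import Pool.Agent.H67.PG.GS

/-!
# MP_725c80: groups acting with slowly growing orbits

Conventions. `Aug p G` (`H67/PG/Growth.lean`) is the augmentation ideal `Δ` of `F_p[G]` (a subspace of
`MonoidAlgebra (ZMod p) G`), `u p g = g - 1`, `InD p n g` means `g - 1 ∈ Δ ^ n` (dimension subgroups),
`Dn p G n` the subgroup (for `n + 1`), `ball S r` the products of at most `r` elements of `S`.
`Strs Δ J a w E`: letters `a i` of weight `w i` in an algebra, commutators and `E i`-th powers of letters are combinations of letters
of the same weight, modulo the next power of `Δ` and modulo `J`.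
`Lsp T n`: the span of the left normed commutators of length `n + 1` of elements of `T`. `Cm S w c`: `c` is an iterated group
commutator of weight `w` of elements of `S`.
`SSim H X`: `H` acts self-similarly on the words over `X`.
-/

set_option autoImplicit false

namespace Pool.Agent.H24.CX

open Pool.Agent.H67.PG

/-! ### letters in an algebra -/

section alg

variable {F A ι : Type*} [Field F] [Ring A] [Algebra F A]

/-- the weight of a list of letters -/
def wt (w : ι → ℕ) (l : List ι) : ℕ := (l.map w).sum

/-- letters whose commutators and powers are combinations of letters of the same weight -/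
structure Strs (Δ J : Submodule F A) (a : ι → A) (w E : ι → ℕ) : Prop where
  Δr : Δ * ⊤ ≤ Δ
  Δl : ⊤ * Δ ≤ Δ
  Jr : J * ⊤ ≤ J
  Jl : ⊤ * J ≤ J
  pos : ∀ i, 1 ≤ w i
  mem : ∀ i, a i ∈ Δ ^ w i
  two : ∀ i, 2 ≤ E i
  swap : ∀ i j, a i * a j - a j * a i ∈
    Submodule.span F (a '' {l | w l = w i + w j}) ⊔ Δ ^ (w i + w j + 1) ⊔ J
  pow : ∀ i, a i ^ E i ∈ Submodule.span F (a '' {l | w l = E i * w i}) ⊔ Δ ^ (E i * w i + 1) ⊔ J

/-- the span of the left normed commutators of `n + 1` elements of `T` -/
def Lsp (T : Set A) : ℕ → Submodule F A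
  | 0 => Submodule.span F T
  | n + 1 => Submodule.span F {y | ∃ x ∈ Lsp T n, ∃ t ∈ T, y = x * t - t * x}

end alg

/-! ### groups -/

section group

variable (p : ℕ) {G : Type} [Group G]

/-- `g - 1` -/
noncomputable def u (g : G) : MonoidAlgebra (ZMod p) G := MonoidAlgebra.of (ZMod p) G g - 1

/-- `g - 1 ∈ Δ ^ n` -/
def InD (n : ℕ) (g : G) : Prop := u p g ∈ Aug p G ^ n

/-- the dimension subgroup of the elements `g` with `g - 1 ∈ Δ ^ (n + 1)` -/
def Dn (G : Type) [Group G] (n : ℕ) : Subgroup G := dimSub p G (n + 1) (Nat.succ_pos n)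

theorem mem_Dn {n : ℕ} {g : G} : g ∈ Dn p G n ↔ InD p (n + 1) g := Iff.rfl

variable {p}

theorem of_eq (g : G) : MonoidAlgebra.of (ZMod p) G g = u p g + 1 := by
  rw [u, sub_add_cancel]

theorem u_one : u p (1 : G) = 0 := by
  rw [u, map_one, sub_self]

theorem u_mem (g : G) : u p g ∈ Aug p G := Submodule.subset_span ⟨g, rfl⟩

theorem InD_one (g : G) : InD p 1 g := by
  rw [InD, pow_one]
  exact u_mem g

/-- the products of at most `r` elements of `S` -/
def ball (S : Set G) (r : ℕ) : Set G := {g | ∃ l : List G, l.length ≤ r ∧ (∀ x ∈ l, x ∈ S) ∧ l.prod = g}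

/-- the commutator -/
def cm (a b : G) : G := a * b * a⁻¹ * b⁻¹

/-- iterated commutators of weight `w` of elements of `S` -/
inductive Cm (S : Set G) : ℕ → G → Prop
  | base {s : G} (h : s ∈ S) : Cm S 1 s
  | comm {a b : G} {i j : ℕ} (ha : Cm S i a) (hb : Cm S j b) : Cm S (i + j) (cm a b)

/-- every nontrivial element is outside some normal subgroup of finite index -/
def RF (G : Type) [Group G] : Prop :=
  ∀ g : G, g ≠ 1 → ∃ N : Subgroup G, N.Normal ∧ N.index ≠ 0 ∧ g ∉ N

end group

/-! ### self-similar actions -/

/-- A self-similar action of the group `H` on the words over `X`: `act g x` is the image of the letter `x`,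
`sec g x` the section of `g` at `x`, so that `g (x v) = (act g x) (sec g x v)`. -/
structure SSim (H X : Type) [Group H] where
  /-- the action on letters -/
  act : H → X → X
  /-- the sections -/
  sec : H → X → H
  act_one : ∀ x, act 1 x = x
  act_mul : ∀ g h x, act (g * h) x = act g (act h x)
  sec_mul : ∀ g h x, sec (g * h) x = sec g (act h x) * sec h x

namespace SSim

variable {H X : Type} [Group H] (A : SSim H X)

/-- the action on words -/
def word : H → List X → List X
  | _, [] => []
  | g, x :: v => A.act g x :: word (A.sec g x) v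

/-- the section at a word -/
def secw : H → List X → H
  | g, [] => g
  | g, x :: v => secw (A.sec g x) v

/-- only the identity fixes all words -/
def Faithful : Prop := ∀ g : H, (∀ v : List X, A.word g v = v) → g = 1

end SSim

end Pool.Agent.H24.CX
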