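import Mathlib

/-!
# CX.NumA : the critical constant

PROOF. Let `c' = max c 0`; `c' * √(p - 1) < log p` (`log p > 0`). For `m ≤ s` the number `x = (p - 1) * (m * s)` is at most `(p - 1) * s ^ 2`, so `c * √x ≤ c' * √(p - 1) * s` (`Real.sqrt_le_sqrt`, `Real.sqrt_mul`, `Real.sqrt_sq`). So the left side is at most `κ * |C| * exp (c' * √(p - 1) * s)` and the right side is `exp (s * log p)`.
It is enough that `κ * |C| < exp (m * (log p - c' * √(p - 1)))` (`Real.add_one_le_exp`: take `m` with `κ * |C| ≤ m * δ`, `δ > 0` the difference, `exists_nat_ge`), `m ≥ 1`.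
-/

set_option autoImplicit false

namespace Pool.Agent.H24.CX

theorem numA {p : ℕ} (hp : 2 ≤ p) {C c : ℝ} (hc : c * Real.sqrt ((p : ℝ) - 1) < Real.log p) (κ : ℕ) :
    ∃ m : ℕ, 1 ≤ m ∧ ∀ s : ℕ, m ≤ s →
      (κ : ℝ) * (C * Real.exp (c * Real.sqrt (((p - 1) * (m * s) : ℕ) : ℝ))) < (p : ℝ) ^ s := by
  have hp1 : (1 : ℝ) ≤ (p : ℝ) - 1 := by
    have : (2 : ℝ) ≤ (p : ℝ) := by exact_mod_cast hp
    linarith
  have hq0 : (0 : ℝ) ≤ (p : ℝ) - 1 := by linarith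
  have hppos : (0 : ℝ) < (p : ℝ) := by linarith
  have hL : 0 < Real.log p := Real.log_pos (by linarith)
  obtain ⟨r, hr⟩ : ∃ r, r = Real.sqrt ((p : ℝ) - 1) := ⟨_, rfl⟩
  have hr0 : 0 ≤ r := by rw [hr]; exact Real.sqrt_nonneg _
  obtain ⟨c', hc'⟩ : ∃ c', c' = max c 0 := ⟨_, rfl⟩
  have hc'0 : 0 ≤ c' := by rw [hc']; exact le_max_right _ _
  have hcc : c ≤ c' := by rw [hc']; exact le_max_left _ _
  have hlt : c' * r < Real.log p := by
    rcases le_total c 0 with h | h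
    · rw [hc', max_eq_right h, zero_mul]
      exact hL
    · rw [hc', max_eq_left h, hr]
      exact hc
  obtain ⟨δ, hδ⟩ : ∃ δ, δ = Real.log p - c' * r := ⟨_, rfl⟩
  have hδ0 : 0 < δ := by rw [hδ]; linarith
  obtain ⟨m, hm⟩ := exists_nat_ge ((κ : ℝ) * |C| / δ + 1)
  have hm1 : (1 : ℝ) ≤ (m : ℝ) := by
    have : 0 ≤ (κ : ℝ) * |C| / δ := by positivity
    linarith
  have hmδ : (κ : ℝ) * |C| < Real.exp (m * δ) := by
    have h1 : (κ : ℝ) * |C| ≤ m * δ := by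
      have h2 : (κ : ℝ) * |C| / δ ≤ m := by linarith
      rwa [div_le_iff₀ hδ0] at h2
    have h2 := Real.add_one_le_exp ((m : ℝ) * δ)
    linarith
  refine ⟨m, by exact_mod_cast hm1, fun s hs => ?_⟩
  have hsm : (m : ℝ) ≤ (s : ℝ) := by exact_mod_cast hs
  have hs0 : (0 : ℝ) ≤ (s : ℝ) := by positivity
  have hx : (((p - 1) * (m * s) : ℕ) : ℝ) ≤ ((p : ℝ) - 1) * ((s : ℝ) ^ 2) := by
    rw [Nat.cast_mul, Nat.cast_mul, Nat.cast_sub (by omega), Nat.cast_one]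
    refine mul_le_mul_of_nonneg_left ?_ hq0
    nlinarith
  have hsq : Real.sqrt (((p - 1) * (m * s) : ℕ) : ℝ) ≤ r * s := by
    refine le_trans (Real.sqrt_le_sqrt hx) ?_
    rw [Real.sqrt_mul hq0, Real.sqrt_sq hs0, hr]
  have h1 : c * Real.sqrt (((p - 1) * (m * s) : ℕ) : ℝ) ≤ c' * r * s := by
    calc c * Real.sqrt (((p - 1) * (m * s) : ℕ) : ℝ) ≤ c' * Real.sqrt (((p - 1) * (m * s) : ℕ) : ℝ) :=
          mul_le_mul_of_nonneg_right hcc (Real.sqrt_nonneg _)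
      _ ≤ c' * (r * s) := mul_le_mul_of_nonneg_left hsq hc'0
      _ = c' * r * s := by ring
  have h2 : (κ : ℝ) * (C * Real.exp (c * Real.sqrt (((p - 1) * (m * s) : ℕ) : ℝ))) ≤
      (κ : ℝ) * |C| * Real.exp (c' * r * s) := by
    rw [mul_assoc]
    refine mul_le_mul_of_nonneg_left ?_ (by positivity)
    exact mul_le_mul (le_abs_self C) (Real.exp_le_exp.2 h1) (Real.exp_pos _).le (abs_nonneg C)
  have h3 : (p : ℝ) ^ s = Real.exp (s * δ) * Real.exp (c' * r * s) := by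
    rw [← Real.exp_add]
    have : (s : ℝ) * δ + c' * r * s = s * Real.log p := by rw [hδ]; ring
    rw [this, Real.exp_nat_mul, Real.exp_log hppos]
  rw [h3]
  refine lt_of_le_of_lt h2 ?_
  refine mul_lt_mul_of_pos_right ?_ (Real.exp_pos _)
  refine lt_of_lt_of_le hmδ (Real.exp_le_exp.2 ?_)
  exact mul_le_mul_of_nonneg_right hsm hδ0.le

end Pool.Agent.H24.CX
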