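import Mathlib

/-!
# CX.NumB : polynomials are bounded by `C exp (c √r)`

PROOF. Take `b` with `B ≤ 2 ^ b` (`Nat.lt_two_pow_self`). For `r ≥ 1`: `2 ^ clog 2 r ≤ 2 r` (`Nat.pow_pred_clog_lt_self` or `Nat.clog_le_of_le_pow`..), so `B ^ clog 2 r ≤ (2 ^ clog 2 r) ^ b ≤ (2 r) ^ b`. And `exp x ≥ x ^ (2 b) / (2 b)!` for `x = c √r ≥ 0` (`Real.pow_div_factorial_le_exp`), where `x ^ (2 b) = c ^ (2 b) * r ^ b`. So `C = M * (1 + 2 ^ b * (2 b)! / c ^ (2 b))` works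
(`r = 0`: `clog 2 0 = 0`, `exp 0 = 1`).
-/

set_option autoImplicit false

namespace Pool.Agent.H24.CX

private theorem numB_clog {r : ℕ} (hr : 1 ≤ r) : 2 ^ Nat.clog 2 r ≤ 2 * r := by
  rcases Nat.lt_or_ge 1 r with h | h
  · have h1 := Nat.pow_pred_clog_lt_self (b := 2) one_lt_two h
    have h2 : 1 ≤ Nat.clog 2 r := Nat.clog_pos one_lt_two h
    have h3 : 2 ^ Nat.clog 2 r = 2 * 2 ^ (Nat.clog 2 r).pred := by
      rw [← pow_succ']
      congr 1
      have : (Nat.clog 2 r).pred = Nat.clog 2 r - 1 := rfl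
      omega
    omega
  · have : r = 1 := by omega
    subst this
    simp

theorem numB (M B : ℕ) {c : ℝ} (hc : 0 < c) :
    ∃ C : ℝ, ∀ r : ℕ, ((M * B ^ Nat.clog 2 r : ℕ) : ℝ) ≤ C * Real.exp (c * Real.sqrt (r : ℝ)) := by
  set D : ℝ := 2 ^ B * (2 * B).factorial / c ^ (2 * B) with hD
  have hD0 : 0 ≤ D := by positivity
  refine ⟨M * (1 + D), fun r => ?_⟩
  have hM : (0 : ℝ) ≤ M := Nat.cast_nonneg M
  rcases Nat.eq_zero_or_pos r with h | h
  · subst h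
    simp
    nlinarith
  · have h1 : B ^ Nat.clog 2 r ≤ (2 * r) ^ B := by
      calc B ^ Nat.clog 2 r ≤ (2 ^ B) ^ Nat.clog 2 r :=
            Nat.pow_le_pow_left (Nat.lt_two_pow_self).le _
        _ = (2 ^ Nat.clog 2 r) ^ B := by rw [← pow_mul, ← pow_mul, mul_comm]
        _ ≤ (2 * r) ^ B := Nat.pow_le_pow_left (numB_clog h) _
    have h2 : ((B ^ Nat.clog 2 r : ℕ) : ℝ) ≤ (2 * (r : ℝ)) ^ B := by exact_mod_cast h1
    have hx : 0 ≤ c * Real.sqrt (r : ℝ) := by positivity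
    have h3 := Real.pow_div_factorial_le_exp (c * Real.sqrt (r : ℝ)) hx (2 * B)
    have h4 : (c * Real.sqrt (r : ℝ)) ^ (2 * B) = c ^ (2 * B) * (r : ℝ) ^ B := by
      rw [mul_pow, pow_mul (Real.sqrt (r : ℝ)) 2 B, Real.sq_sqrt (Nat.cast_nonneg r)]
    have h5 : (2 * (r : ℝ)) ^ B = D * ((c * Real.sqrt (r : ℝ)) ^ (2 * B) / (2 * B).factorial) := by
      rw [h4, hD, mul_pow]
      have : (c ^ (2 * B) : ℝ) ≠ 0 := by positivity
      have : (((2 * B).factorial : ℕ) : ℝ) ≠ 0 := by positivity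
      field_simp
    have h6 : (2 * (r : ℝ)) ^ B ≤ (1 + D) * Real.exp (c * Real.sqrt (r : ℝ)) := by
      rw [h5]
      have := mul_le_mul_of_nonneg_left h3 hD0
      have := Real.exp_pos (c * Real.sqrt (r : ℝ))
      nlinarith
    push_cast
    push_cast at h2
    calc (M : ℝ) * (B : ℝ) ^ Nat.clog 2 r ≤ M * ((1 + D) * Real.exp (c * Real.sqrt (r : ℝ))) :=
          mul_le_mul_of_nonneg_left (h2.trans h6) hM
      _ = _ := by ring

end Pool.Agent.H24.CX
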