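import Pool.Agent.H24.CX.Defs

/-!
# CX.OrbA : a faithful action of an infinite finitely generated group has orbits of unbounded size

PROOF. Otherwise `index ≠ 0` and `index ≤ n` for all stabilisers. `M = ⨅ φ : G →* Equiv.Perm (Fin n), φ.ker`: there are finitely many `φ` (a homomorphism is determined by its values on a finite generating set: `MonoidHom.eq_of_eqOn_dense`; injection into the functions from the generators to `Perm (Fin n)`), each kernel has finite index (finite target: `Subgroup.index_ker`),
so `M.index ≠ 0` (`Subgroup.index_iInf_ne_zero` or `Subgroup.finiteIndex_iInf`). `M` acts trivially: the orbit of `ξ` has `index ≤ n` elements (`MulAction.index_stabilizer`), it is finite, so it embeds into `Fin n`, and `MulAction.toPermHom G (orbit)` followed by `Equiv.Perm.viaEmbeddingHom` (injective) is one of the `φ`; so `g ∈ M` fixes `ξ`. By faithfulness `M = ⊥`, and `⊥.index = Nat.card G = 0` (`Subgroup.index_bot`), a contradiction.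
-/

set_option autoImplicit false

namespace Pool.Agent.H24.CX

variable {G : Type} [Group G]

theorem exists_large [Infinite G] {S : Set G} (hSf : S.Finite) (hS : Subgroup.closure S = ⊤) {Ω : Type}
    [MulAction G Ω] [FaithfulSMul G Ω] (n : ℕ) :
    ∃ ξ : Ω, (MulAction.stabilizer G ξ).index = 0 ∨ n < (MulAction.stabilizer G ξ).index := by
  by_contra hcon
  push Not at hcon
  have hfin : Finite (G →* Equiv.Perm (Fin n)) := by
    have : Finite S := hSf
    refine Finite.of_injective
      (fun φ : G →* Equiv.Perm (Fin n) => fun s : S => φ (s : G)) fun φ ψ h => ?_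
    refine MonoidHom.eq_of_eqOn_dense hS fun s hs => ?_
    exact congrFun h ⟨s, hs⟩
  have hM : (⨅ φ : G →* Equiv.Perm (Fin n), φ.ker).FiniteIndex := by
    refine Subgroup.finiteIndex_iInf fun φ => ?_
    infer_instance
  have hMt : (⨅ φ : G →* Equiv.Perm (Fin n), φ.ker) = ⊥ := by
    rw [eq_bot_iff]
    intro g hg
    rw [Subgroup.mem_bot]
    refine eq_of_smul_eq_smul (α := Ω) fun ξ => ?_
    rw [one_smul]
    obtain ⟨h0, h1⟩ := hcon ξ
    rw [MulAction.index_stabilizer] at h0 h1
    have hOf : Finite (MulAction.orbit G ξ) := Set.finite_of_ncard_ne_zero h0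
    have := Fintype.ofFinite (MulAction.orbit G ξ)
    have hcard : Fintype.card (MulAction.orbit G ξ) ≤ Fintype.card (Fin n) := by
      rw [Fintype.card_fin, ← Nat.card_eq_fintype_card]
      exact h1
    obtain ⟨e⟩ := Function.Embedding.nonempty_of_card_le hcard
    have h2 := (Subgroup.mem_iInf.1 hg)
      ((Equiv.Perm.viaEmbeddingHom e).comp (MulAction.toPermHom G (MulAction.orbit G ξ)))
    rw [MonoidHom.mem_ker, MonoidHom.comp_apply] at h2
    have h3 : MulAction.toPermHom G (MulAction.orbit G ξ) g = 1 :=
      Equiv.Perm.viaEmbeddingHom_injective e (h2.trans (map_one _).symm)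
    have h4 := Equiv.congr_fun h3 ⟨ξ, MulAction.mem_orbit_self ξ⟩
    have h5 := congrArg Subtype.val h4
    exact h5
  rw [hMt] at hM
  exact hM.index_ne_zero (by rw [Subgroup.index_bot, Nat.card_eq_zero_of_infinite])

end Pool.Agent.H24.CX
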