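import Pool.Agent.H24.CX.Defs

/-!
# CX.OrbB : a limit of subgroups of large index is finite

PROOF. `U = Filter.hyperfilter ℕ` (an ultrafilter finer than `cofinite`), `L = {g | ∀ᶠ n in U, g ∈ T n}`, a subgroup (`Filter.Eventually.and`, `mono`). If `L` is infinite then `L.index ≠ 0` (`hQ`), so `L` is finitely generated (`Subgroup.fg_of_index_ne_zero`, `G` is finitely generated by `S`); the finitely many generators are in `T n` for `U`-almost all `n` (`Filter.eventually_all_finset` or `Set.Finite`),
so `L ≤ T n` for `U`-almost all `n`, in particular for some `n ≥ L.index` (`U ≤ atTop`: `Nat.hyperfilter_le_atTop`). Then `(T n).index ∣ L.index` (`Subgroup.index_dvd_of_le`), so `(T n).index ≠ 0` and `≤ L.index ≤ n`, against `hT`. So `L` is finite. Given a finite `B`: for `g ∈ B` outside `L` we have `g ∉ T n` for `U`-almost all `n` (`Ultrafilter.eventually_not`),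
so for `U`-almost all `n` this holds for all `g ∈ B`, and `U` is not trivial (`Filter.Eventually.exists`).
-/

set_option autoImplicit false

namespace Pool.Agent.H24.CX

variable {G : Type} [Group G]

theorem exists_limit {S : Set G} (hSf : S.Finite) (hS : Subgroup.closure S = ⊤)
    (hQ : ∀ K : Subgroup G, (K : Set G).Finite ∨ K.index ≠ 0) (T : ℕ → Subgroup G)
    (hT : ∀ n, (T n).index = 0 ∨ n < (T n).index) :
    ∃ L : Subgroup G, (L : Set G).Finite ∧ ∀ B : Set G, B.Finite → ∃ n, ∀ g ∈ B, g ∈ T n → g ∈ L := by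
  have hfg : Group.FG G := Group.fg_iff.2 ⟨S, hS, hSf⟩
  let L : Subgroup G :=
    { carrier := {g | ∀ᶠ n in (Filter.hyperfilter ℕ : Filter ℕ), g ∈ T n}
      one_mem' := Filter.Eventually.of_forall fun n => (T n).one_mem
      mul_mem' := by
        intro a b ha hb
        exact (Filter.Eventually.and ha hb).mono fun n h => (T n).mul_mem h.1 h.2
      inv_mem' := by
        intro a ha
        exact Filter.Eventually.mono ha fun n h => (T n).inv_mem h }
  have hL : ∀ g, g ∈ L ↔ ∀ᶠ n in (Filter.hyperfilter ℕ : Filter ℕ), g ∈ T n := fun g => Iff.rfl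
  have hfin : (L : Set G).Finite := by
    by_contra hinf
    have hidx : L.index ≠ 0 := (hQ L).resolve_left hinf
    have hFI : L.FiniteIndex := ⟨hidx⟩
    have h1 : Group.FG L := Subgroup.fg_of_index_ne_zero L
    obtain ⟨S', hS', hS'f⟩ := (Subgroup.fg_iff L).1 ((Group.fg_iff_subgroup_fg L).1 h1)
    have h2 : ∀ᶠ n in (Filter.hyperfilter ℕ : Filter ℕ), ∀ g ∈ S', g ∈ T n := by
      rw [Filter.eventually_all_finite hS'f]
      intro g hg
      rw [← hL, ← hS']
      exact Subgroup.subset_closure hg
    have h3 : ∀ᶠ n in (Filter.hyperfilter ℕ : Filter ℕ), L.index ≤ n :=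
      Nat.hyperfilter_le_atTop (Filter.eventually_ge_atTop L.index)
    obtain ⟨n, hn1, hn2⟩ := (h2.and h3).exists
    have h4 : L ≤ T n := by
      rw [← hS', Subgroup.closure_le]
      exact hn1
    have h5 := Subgroup.index_dvd_of_le h4
    rcases hT n with h6 | h6
    · rw [h6] at h5
      exact hidx (Nat.eq_zero_of_zero_dvd h5)
    · have h7 := Nat.le_of_dvd (Nat.pos_of_ne_zero hidx) h5
      omega
  refine ⟨L, hfin, fun B hB => ?_⟩
  have h1 : ∀ᶠ n in (Filter.hyperfilter ℕ : Filter ℕ), ∀ g ∈ B, g ∈ T n → g ∈ L := by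
    rw [Filter.eventually_all_finite hB]
    intro g _
    by_cases hg : g ∈ L
    · exact Filter.Eventually.of_forall fun n _ => hg
    · have h2 : ∀ᶠ n in (Filter.hyperfilter ℕ : Filter ℕ), ¬ g ∈ T n :=
        Ultrafilter.eventually_not.2 fun h => hg ((hL g).2 h)
      exact h2.mono fun n h h' => absurd h' h
  exact h1.exists

end Pool.Agent.H24.CX
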