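import Pool.Agent.H24.CX.Defs

/-!
# CX.OrbC : counting a finite set by its images of one point

PROOF. The fibres of `g ↦ g • ξ` on `B` have at most `|L|` elements: for `g₀` in the fibre, `g ↦ g₀⁻¹ * g` maps the fibre injectively into `L` (`g₀ • ξ = g • ξ` gives `(g₀⁻¹ * g) • ξ = ξ`). `Finset.card_le_mul_card_image` (with `Set.Finite.toFinset`, `Set.ncard_eq_toFinset_card`).
-/

set_option autoImplicit false

namespace Pool.Agent.H24.CX

variable {G : Type} [Group G]

theorem card_le_orb {Ω : Type} [MulAction G Ω] {B : Set G} (hB : B.Finite) {L : Subgroup G}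
    (hL : (L : Set G).Finite) {ξ : Ω} (h : ∀ g ∈ B, ∀ g' ∈ B, (g⁻¹ * g') • ξ = ξ → g⁻¹ * g' ∈ L) :
    B.ncard ≤ (L : Set G).ncard * ((fun g : G => g • ξ) '' B).ncard := by
  classical
  have h1 : B.ncard = hB.toFinset.card := Set.ncard_eq_toFinset_card B hB
  have h2 : (L : Set G).ncard = hL.toFinset.card := Set.ncard_eq_toFinset_card _ hL
  have h3 : ((fun g : G => g • ξ) '' B).ncard =
      (hB.toFinset.image (fun g : G => g • ξ)).card := by
    rw [← Set.ncard_coe_finset, Finset.coe_image, Set.Finite.coe_toFinset]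
  rw [h1, h2, h3]
  refine Finset.card_le_mul_card_image _ _ ?_
  intro ω hω
  obtain ⟨g₀, hg₀, rfl⟩ := Finset.mem_image.1 hω
  have hg₀' : g₀ ∈ B := hB.mem_toFinset.1 hg₀
  refine Finset.card_le_card_of_injOn (fun g => g₀⁻¹ * g) ?_ ?_
  · intro g hg
    have hg1 := Finset.mem_filter.1 (Finset.mem_coe.1 hg)
    have hgB : g ∈ B := hB.mem_toFinset.1 hg1.1
    rw [Set.Finite.coe_toFinset]
    refine h g₀ hg₀' g hgB ?_
    rw [mul_smul, hg1.2, inv_smul_smul]
  · intro a _ b _ hab
    exact mul_left_cancel hab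

end Pool.Agent.H24.CX
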