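import Pool.Agent.H24.CX.SsF
import Pool.Agent.H24.CX.Gen

/-!
# CX.SsG : polynomial growth of the orbits on words

PROOF. `i = Nat.clog 2 r`, `r ≤ 2 ^ i` (`Nat.le_pow_clog`). `1 ≤ M` (`1 ∈ N 0`). The number of words of length `n` is `Nat.card X ^ n`. If `v.length < k * i`: the image consists of words of length `v.length` (`length_word`), at most `Nat.card X ^ v.length ≤ Nat.card X ^ (k * i)` of them (`X` nonempty).
Otherwise `v = v₁ ++ v₂`, `v₁.length = k * i` (`List.take`, `List.drop`); `word g v = word g v₁ ++ word (secw g v₁) v₂` (`word_append`) and `secw g v₁ ∈ N i` (`contract` with `j = 0`), so the image is contained in the image of `{words of length k * i} × N i` under `(w, h) ↦ w ++ word h v₂`: at most `Nat.card X ^ (k * i) * M ^ (i + 1)` elements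
(`Set.ncard_image_le`, `Set.ncard_prod`).
-/

set_option autoImplicit false

namespace Pool.Agent.H24.CX

private theorem ssg_words (X : Type) [Finite X] (n : ℕ) :
    ({l : List X | l.length = n}).ncard = Nat.card X ^ n := by
  classical
  have := Fintype.ofFinite X
  have h1 : ({l : List X | l.length = n}).ncard = Nat.card (List.Vector X n) :=
    (Nat.card_coe_set_eq _).symm
  rw [h1, Nat.card_eq_fintype_card, card_vector, Nat.card_eq_fintype_card]

variable {H X : Type} [Group H] [Finite X] [Nonempty X] (A : SSim H X)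

theorem orb_le {k M : ℕ} {N : ℕ → Set H} (hNf : ∀ j, (N j).Finite) (hNc : ∀ j, (N j).ncard ≤ M ^ (j + 1))
    (h1 : ∀ j, 1 ∈ N j)
    (h2 : ∀ j, ∀ g ∈ N j, ∀ h ∈ N j, ∀ v : List X, v.length = k → A.secw (g * h) v ∈ N (j + 1))
    {S : Set H} (hS : S ⊆ N 0) (v : List X) (r : ℕ) :
    ((fun g : H => A.word g v) '' ball S r).ncard ≤ M * (Nat.card X ^ k * M) ^ Nat.clog 2 r := by
  set i := Nat.clog 2 r with hi
  have hr : r ≤ 2 ^ i := Nat.le_pow_clog (by norm_num) r
  have hM : 1 ≤ M := by
    have h3 : 0 < (N 0).ncard := (Set.ncard_pos (hNf 0)).2 ⟨1, h1 0⟩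
    have h4 := hNc 0
    rw [zero_add, pow_one] at h4
    omega
  have hX : 1 ≤ Nat.card X := Nat.card_pos
  by_cases hv : v.length < k * i
  · have hsub : (fun g : H => A.word g v) '' ball S r ⊆ {l : List X | l.length = v.length} := by
      rintro _ ⟨g, _, rfl⟩
      exact A.length_word g v
    have hfin : ({l : List X | l.length = v.length}).Finite := List.finite_length_eq X _
    calc ((fun g : H => A.word g v) '' ball S r).ncard
        ≤ ({l : List X | l.length = v.length}).ncard := Set.ncard_le_ncard hsub hfin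
      _ = Nat.card X ^ v.length := ssg_words X _
      _ ≤ Nat.card X ^ (k * i) := Nat.pow_le_pow_right hX hv.le
      _ = (Nat.card X ^ k) ^ i := pow_mul _ _ _
      _ ≤ (Nat.card X ^ k * M) ^ i := Nat.pow_le_pow_left (Nat.le_mul_of_pos_right _ hM) _
      _ ≤ M * (Nat.card X ^ k * M) ^ i := Nat.le_mul_of_pos_left _ hM
  · push Not at hv
    set v₁ := v.take (k * i) with hv1
    set v₂ := v.drop (k * i) with hv2
    have hvv : v = v₁ ++ v₂ := (List.take_append_drop _ _).symm
    have hl1 : v₁.length = k * i := by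
      rw [hv1, List.length_take]
      exact min_eq_left hv
    have hsub : (fun g : H => A.word g v) '' ball S r ⊆
        (fun x : List X × H => x.1 ++ A.word x.2 v₂) '' ({l : List X | l.length = k * i} ×ˢ N i) := by
      rintro _ ⟨g, ⟨l, hl, hlS, rfl⟩, rfl⟩
      refine ⟨(A.word l.prod v₁, A.secw l.prod v₁), ⟨?_, ?_⟩, ?_⟩
      · show (A.word l.prod v₁).length = k * i
        rw [A.length_word, hl1]
      · have h3 := contract A h1 h2 i 0 l (hl.trans hr) (fun x hx => hS (hlS x hx)) v₁ hl1
        rw [zero_add] at h3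
        exact h3
      · show A.word l.prod v₁ ++ A.word (A.secw l.prod v₁) v₂ = A.word l.prod v
        rw [← A.word_append, ← hvv]
    have hfin : ({l : List X | l.length = k * i} ×ˢ N i : Set (List X × H)).Finite :=
      (List.finite_length_eq X _).prod (hNf i)
    calc ((fun g : H => A.word g v) '' ball S r).ncard
        ≤ ((fun x : List X × H => x.1 ++ A.word x.2 v₂) ''
            ({l : List X | l.length = k * i} ×ˢ N i)).ncard :=
          Set.ncard_le_ncard hsub (hfin.image _)
      _ ≤ ({l : List X | l.length = k * i} ×ˢ N i : Set (List X × H)).ncard :=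
          Set.ncard_image_le hfin
      _ = ({l : List X | l.length = k * i}).ncard * (N i).ncard := Set.ncard_prod
      _ = (Nat.card X ^ k) ^ i * (N i).ncard := by rw [ssg_words, pow_mul]
      _ ≤ (Nat.card X ^ k) ^ i * M ^ (i + 1) := Nat.mul_le_mul_left _ (hNc i)
      _ = M * (Nat.card X ^ k * M) ^ i := by rw [mul_pow, pow_succ]; ring

end Pool.Agent.H24.CX
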