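import Pool.Agent.H24.CX.SsA

/-!
# CX.SsR : groups acting faithfully on words over a finite alphabet are residually finite

PROOF. Let `g ≠ 1` in `G`. There is `v` with `A.word g v ≠ v`, `n = v.length`. The maps `w ↦ A.word h w` on the finite set `{w : List X // w.length = n}` (`length_word`; finite: `List.finite_length_eq`) give a homomorphism `↥G →* Equiv.Perm {w : List X // w.length = n}` (`word_mul`, `word_one`); its kernel is normal of finite index
(the target is finite) and does not contain `g`.
-/

set_option autoImplicit false

namespace Pool.Agent.H24.CX

variable {H X : Type} [Group H] [Finite X] (A : SSim H X)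

omit [Finite X] in
/-- the action on the words of length `n` -/
def ssrHom (G : Subgroup H) (n : ℕ) : G →* Equiv.Perm {w : List X // w.length = n} where
  toFun h :=
    { toFun := fun w => ⟨A.word (h : H) w.1, by rw [A.length_word]; exact w.2⟩
      invFun := fun w => ⟨A.word (h : H)⁻¹ w.1, by rw [A.length_word]; exact w.2⟩
      left_inv := fun w => Subtype.ext (A.word_inv_word _ _)
      right_inv := fun w => Subtype.ext (by
        show A.word (h : H) (A.word (h : H)⁻¹ w.1) = w.1
        rw [← A.word_mul, mul_inv_cancel, A.word_one]) }
  map_one' := by
    apply Equiv.ext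
    intro w
    exact Subtype.ext (A.word_one _)
  map_mul' := fun g h => by
    apply Equiv.ext
    intro w
    exact Subtype.ext (A.word_mul _ _ _)

theorem rf_of_faithful (hA : A.Faithful) (G : Subgroup H) : RF G := by
  intro g hg
  have hg1 : (g : H) ≠ 1 := fun h => hg (Subtype.ext h)
  have hex : ∃ v : List X, A.word (g : H) v ≠ v := by
    by_contra hno
    push Not at hno
    exact hg1 (hA _ hno)
  obtain ⟨v, hv⟩ := hex
  have : Finite {w : List X // w.length = v.length} := (List.finite_length_eq X v.length).to_subtype
  refine ⟨(ssrHom A G v.length).ker, inferInstance, ?_, ?_⟩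
  · have : Finite (Equiv.Perm {w : List X // w.length = v.length}) := inferInstance
    have : Finite (ssrHom A G v.length).range := inferInstance
    have h := Subgroup.index_ker (ssrHom A G v.length)
    rw [h]
    exact Nat.card_pos.ne'
  · intro hk
    rw [MonoidHom.mem_ker] at hk
    have h1 := congrArg (fun e : Equiv.Perm {w : List X // w.length = v.length} => (e ⟨v, rfl⟩).1) hk
    exact hv h1

end Pool.Agent.H24.CX
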