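import Pool.Agent.H24.CX.Gro
import Pool.Agent.H24.CX.OrbA
import Pool.Agent.H24.CX.OrbB
import Pool.Agent.H24.CX.OrbC
import Pool.Agent.H24.CX.NumA
import Pool.Agent.H24.CX.NumB
import Pool.Agent.H24.CX.SsR
import Pool.Agent.H24.CX.SsG

/-!
# CX.Fin : assembly
-/

set_option autoImplicit false

namespace Pool.Agent.H24.CX

open Pool.Agent.H67.PG

/-- orbits growing more slowly than `exp (c √r)`, `c < log p / √(p - 1)` -/
theorem slow_orbits {p : ℕ} [Fact p.Prime] {G : Type} [Group G] [Infinite G] (hG : IsPGroup p G)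
    (hRF : RF G) {S : Set G} (hSf : S.Finite) (hS : Subgroup.closure S = ⊤) {Ω : Type} [MulAction G Ω]
    (hΩ : ∀ n : ℕ, ∃ ξ : Ω,
      (MulAction.stabilizer G ξ).index = 0 ∨ n < (MulAction.stabilizer G ξ).index)
    {C c : ℝ} (hc : c * Real.sqrt ((p : ℝ) - 1) < Real.log p)
    (h : ∀ (ξ : Ω) (r : ℕ),
      (((fun g : G => g • ξ) '' ball S r).ncard : ℝ) ≤ C * Real.exp (c * Real.sqrt (r : ℝ))) :
    ∃ K : Subgroup G, (K : Set G).Infinite ∧ K.index = 0 := by
  by_contra hcon
  have hQ : ∀ K : Subgroup G, (K : Set G).Finite ∨ K.index ≠ 0 := by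
    intro K
    by_contra hK
    rw [not_or, not_not] at hK
    exact hcon ⟨K, hK.1, hK.2⟩
  choose ξ hξ using hΩ
  obtain ⟨L, hL, hlim⟩ := exists_limit hSf hS hQ (fun n => MulAction.stabilizer G (ξ n)) hξ
  obtain ⟨m, hm, hnum⟩ := numA (C := C) (Fact.out : p.Prime).two_le hc (L : Set G).ncard
  obtain ⟨s, hs, hgrow⟩ := growth_ball hSf hS hG hRF hm
  have hB := ball_finite hSf ((p - 1) * (m * s))
  obtain ⟨n, hn⟩ := hlim (Set.image2 (fun g h => g⁻¹ * h) (ball S ((p - 1) * (m * s)))
    (ball S ((p - 1) * (m * s)))) (hB.image2 _ hB)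
  have h1 : (ball S ((p - 1) * (m * s))).ncard ≤
      (L : Set G).ncard * ((fun g : G => g • ξ n) '' ball S ((p - 1) * (m * s))).ncard := by
    refine card_le_orb hB hL ?_
    intro g hg g' hg' h2
    exact hn _ (Set.mem_image2_of_mem hg hg') h2
  have h2 := h (ξ n) ((p - 1) * (m * s))
  have h3 := hnum s hs
  have h4 : (p : ℝ) ^ s ≤ ((ball S ((p - 1) * (m * s))).ncard : ℝ) := by
    exact_mod_cast hgrow
  have h5 : ((ball S ((p - 1) * (m * s))).ncard : ℝ) ≤
      ((L : Set G).ncard : ℝ) *
        (((fun g : G => g • ξ n) '' ball S ((p - 1) * (m * s))).ncard : ℝ) := by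
    exact_mod_cast h1
  have h6 := mul_le_mul_of_nonneg_left h2 (Nat.cast_nonneg (α := ℝ) (L : Set G).ncard)
  linarith

/-- the action of a subgroup on words -/
def wordAct {H X : Type} [Group H] (A : SSim H X) (G : Subgroup H) : MulAction G (List X) where
  smul g v := A.word g v
  one_smul v := A.word_one v
  mul_smul g h v := A.word_mul g h v

/-- uniformly contracting groups -/
theorem uniformly_contracting {p : ℕ} [Fact p.Prime] {H X : Type} [Group H] [Finite X] (A : SSim H X)
    (hA : A.Faithful) {k M : ℕ} {N : ℕ → Set H} (hNf : ∀ j, (N j).Finite)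
    (hNc : ∀ j, (N j).ncard ≤ M ^ (j + 1)) (h1 : ∀ j, 1 ∈ N j)
    (h2 : ∀ j, ∀ g ∈ N j, ∀ h ∈ N j, ∀ v : List X, v.length = k → A.secw (g * h) v ∈ N (j + 1))
    {S : Set H} (hS : S ⊆ N 0) (hG : IsPGroup p (Subgroup.closure S))
    (hinf : (Subgroup.closure S : Set H).Infinite) :
    ∃ K : Subgroup H, K ≤ Subgroup.closure S ∧ (K : Set H).Infinite ∧
      K.relIndex (Subgroup.closure S) = 0 := by
  haveI : Infinite (Subgroup.closure S) := hinf.to_subtype
  have hX : Nonempty X := by
    by_contra hX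
    rw [not_nonempty_iff] at hX
    refine hinf (Set.Finite.subset (Set.finite_singleton 1) ?_)
    intro g _
    refine hA g ?_
    intro v
    cases v with
    | nil => exact A.word_nil g
    | cons x v => exact (IsEmpty.false x).elim
  letI := wordAct A (Subgroup.closure S)
  have hf : FaithfulSMul (Subgroup.closure S) (List X) := by
    constructor
    intro a b hab
    have h3 : (b : H)⁻¹ * (a : H) = 1 := by
      refine hA _ ?_
      intro v
      have h4 : A.word (a : H) v = A.word (b : H) v := hab v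
      rw [A.word_mul, h4, A.word_inv_word]
    refine Subtype.ext ?_
    exact (inv_mul_eq_one.1 h3).symm
  have hSf : S.Finite := (hNf 0).subset hS
  have hSf' : (((↑) : Subgroup.closure S → H) ⁻¹' S).Finite :=
    hSf.preimage Subtype.val_injective.injOn
  have hS' : Subgroup.closure (((↑) : Subgroup.closure S → H) ⁻¹' S) = ⊤ :=
    Subgroup.closure_closure_coe_preimage
  have hp : 2 ≤ p := (Fact.out : p.Prime).two_le
  have hlog : 0 < Real.log p := Real.log_pos (by exact_mod_cast hp)
  have hsq : 0 < Real.sqrt ((p : ℝ) - 1) := by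
    apply Real.sqrt_pos.2
    have : (2 : ℝ) ≤ p := by exact_mod_cast hp
    linarith
  obtain ⟨C, hC⟩ := numB M (Nat.card X ^ k * M)
    (c := Real.log p / (2 * Real.sqrt ((p : ℝ) - 1))) (by positivity)
  have hc : Real.log p / (2 * Real.sqrt ((p : ℝ) - 1)) * Real.sqrt ((p : ℝ) - 1) < Real.log p := by
    have h3 : Real.log p / (2 * Real.sqrt ((p : ℝ) - 1)) * Real.sqrt ((p : ℝ) - 1) =
        Real.log p / 2 := by
      field_simp
    rw [h3]
    linarith
  obtain ⟨K, hK1, hK2⟩ := slow_orbits hG (rf_of_faithful A hA (Subgroup.closure S)) hSf' hS'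
    (Ω := List X) (fun n => exists_large hSf' hS' n) hc (C := C) (by
      intro v r
      refine le_trans ?_ (hC r)
      have h3 := orb_le A hNf hNc h1 h2 hS v r
      have h4 : (fun g : Subgroup.closure S => g • v) ''
          ball (((↑) : Subgroup.closure S → H) ⁻¹' S) r ⊆ (fun g : H => A.word g v) '' ball S r := by
        rintro _ ⟨g, ⟨l, hl1, hl2, rfl⟩, rfl⟩
        refine ⟨(l.map (fun x : Subgroup.closure S => (x : H))).prod,
          ⟨l.map (fun x : Subgroup.closure S => (x : H)), ?_, ?_, rfl⟩, ?_⟩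
        · rw [List.length_map]
          exact hl1
        · intro x hx
          obtain ⟨y, hy, rfl⟩ := List.mem_map.1 hx
          exact hl2 y hy
        · have h5 : (l.map (fun x : Subgroup.closure S => (x : H))).prod = (l.prod : H) :=
            (map_list_prod (Subgroup.closure S).subtype l).symm
          show A.word (l.map (fun x : Subgroup.closure S => (x : H))).prod v = A.word (l.prod : H) v
          rw [h5]
      have h5 := Set.ncard_le_ncard h4 ((ball_finite hSf r).image _)
      exact_mod_cast h5.trans h3)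
  refine ⟨K.map (Subgroup.closure S).subtype, ?_, ?_, ?_⟩
  · rintro _ ⟨x, _, rfl⟩
    exact x.2
  · rw [Subgroup.coe_map]
    exact hK1.image (Subtype.val_injective.injOn)
  · rw [Subgroup.relIndex, Subgroup.subgroupOf, Subgroup.comap_map_eq_self_of_injective
      (Subgroup.subtype_injective _)]
    exact hK2

end Pool.Agent.H24.CX
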