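import Pool.Agent.H24.CX.Fin

/-!
# CX.FinB : bounded displacement and contracting groups
-/

set_option autoImplicit false

namespace Pool.Agent.H24.CX

open Pool.Agent.H67.PG

/-- faithful actions, or actions with orbits of unbounded size -/
theorem slow_orbits' {p : ℕ} [Fact p.Prime] {G : Type} [Group G] [Infinite G] (hG : IsPGroup p G)
    (hRF : RF G) {S : Set G} (hSf : S.Finite) (hS : Subgroup.closure S = ⊤) {Ω : Type} [MulAction G Ω]
    (hΩ : FaithfulSMul G Ω ∨ ∀ n : ℕ, ∃ ξ : Ω,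
      (MulAction.orbit G ξ).Infinite ∨ n < (MulAction.orbit G ξ).ncard)
    {C c : ℝ} (hc : c * Real.sqrt ((p : ℝ) - 1) < Real.log p)
    (h : ∀ (ξ : Ω) (r : ℕ),
      (((fun g : G => g • ξ) '' ball S r).ncard : ℝ) ≤ C * Real.exp (c * Real.sqrt (r : ℝ))) :
    ∃ K : Subgroup G, (K : Set G).Infinite ∧ K.index = 0 := by
  refine slow_orbits hG hRF hSf hS (Ω := Ω) ?_ hc h
  rcases hΩ with hΩ | hΩ
  · exact fun n => exists_large hSf hS n
  · intro n
    obtain ⟨ξ, hξ⟩ := hΩ n
    refine ⟨ξ, ?_⟩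
    rw [MulAction.index_stabilizer]
    rcases hξ with hξ | hξ
    · exact Or.inl hξ.ncard
    · exact Or.inr hξ

/-- permutations of displacement at most `1` -/
theorem displacement {p : ℕ} [Fact p.Prime] {G : Type} [Group G] [Infinite G] (hG : IsPGroup p G)
    (hRF : RF G) {S : Set G} (hSf : S.Finite) (hS : Subgroup.closure S = ⊤) {Ω : Type}
    [PseudoMetricSpace Ω] [MulAction G Ω] (hΩ : FaithfulSMul G Ω)
    (hd : ∀ s ∈ S, ∀ ξ : Ω, dist (s • ξ) ξ ≤ 1)
    {C c : ℝ} (hc : c * Real.sqrt ((p : ℝ) - 1) < Real.log p)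
    (h : ∀ (ξ : Ω) (r : ℕ), (Metric.closedBall ξ (r : ℝ)).Finite ∧
      ((Metric.closedBall ξ (r : ℝ)).ncard : ℝ) ≤ C * Real.exp (c * Real.sqrt (r : ℝ))) :
    ∃ K : Subgroup G, (K : Set G).Infinite ∧ K.index = 0 := by
  refine slow_orbits' hG hRF hSf hS (Ω := Ω) (Or.inl hΩ) (C := C) hc ?_
  intro ξ r
  refine le_trans ?_ (h ξ r).2
  have h1 : (fun g : G => g • ξ) '' ball S r ⊆ Metric.closedBall ξ (r : ℝ) := by
    rintro _ ⟨g, ⟨l, hl1, hl2, rfl⟩, rfl⟩
    have h2 : ∀ l : List G, (∀ x ∈ l, x ∈ S) → dist (l.prod • ξ) ξ ≤ l.length := by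
      intro l
      induction l with
      | nil => intro _; simp
      | cons x l ih =>
        intro hx
        have h3 := ih (fun y hy => hx y (List.mem_cons_of_mem x hy))
        have h4 := hd x (hx x List.mem_cons_self) (l.prod • ξ)
        have h5 := dist_triangle (x • (l.prod • ξ)) (l.prod • ξ) ξ
        rw [List.prod_cons, mul_smul, List.length_cons]
        push_cast
        linarith
    rw [Metric.mem_closedBall]
    refine (h2 l hl2).trans ?_
    exact_mod_cast hl1
  exact_mod_cast Set.ncard_le_ncard h1 (h ξ r).1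

/-- contracting groups -/
theorem contracting {p : ℕ} [Fact p.Prime] {H X : Type} [Group H] [Finite X] (A : SSim H X)
    (hA : A.Faithful) {N : Set H} (hN : N.Finite)
    (hc : ∀ g : H, ∃ n : ℕ, ∀ v : List X, n ≤ v.length → A.secw g v ∈ N)
    {S : Set H} (hS : S.Finite) (hG : IsPGroup p (Subgroup.closure S))
    (hinf : (Subgroup.closure S : Set H).Infinite) :
    ∃ K : Subgroup H, K ≤ Subgroup.closure S ∧ (K : Set H).Infinite ∧
      K.relIndex (Subgroup.closure S) = 0 := by
  choose n hn using hc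
  have hT : (insert 1 (S ∪ N)).Finite := (hS.union hN).insert 1
  obtain ⟨k, hk⟩ := (((hT.image2 (fun g h => g * h) hT)).image n).bddAbove
  refine uniformly_contracting A hA (k := k) (M := (insert 1 (S ∪ N)).ncard)
    (N := fun _ => insert 1 (S ∪ N)) (fun _ => hT) ?_ (fun _ => Set.mem_insert _ _) ?_
    (fun x hx => Set.mem_insert_of_mem _ (Or.inl hx)) hG hinf
  · intro j
    exact Nat.le_self_pow (by omega) _
  · intro j g hg h hh v hv
    refine Set.mem_insert_of_mem _ (Or.inr (hn _ v ?_))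
    rw [hv]
    exact hk (Set.mem_image_of_mem n (Set.mem_image2_of_mem hg hh))

end Pool.Agent.H24.CX
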