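import Pool.Agent.H24.CX.PbB

/-!
# CX.PbC : `Δ ^ n ≤ Δ ^ t ⊔ J` for large `n` and all `t`

PROOF. (1) For `n ≥ 1`: `Δ ^ n ≤ span {(l.map a).prod | all letters of l have weight 1, l.length = n} ⊔ Δ ^ (n + 1) ⊔ J` by induction on `n` (`n = 1`: `h1`, `Δ ^ 2 = Δ ^ (1 + 1)`): `Δ ^ (n + 1) = Δ ^ n * Δ` and
`(X ⊔ Y ⊔ J) * (X' ⊔ Y' ⊔ J)` expands (`Submodule.sup_mul`, `Submodule.mul_sup`): `X * X'` is spanned by products of lists of length `n + 1`, `X * Δ ^ 2 ≤ Δ ^ n * Δ ^ 2` (`X ≤ Δ ^ n`, `prod_mem_wt`), `Δ ^ (n + 1) * Δ`, and `J * ..`, `.. * J` are in `J`.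
(2) `n > ∑ (E i - 1) w i`: such a product is in `Δ ^ (n + 1) ⊔ J` (`prod_mem`, weight `n`), so `Δ ^ n ≤ Δ ^ (n + 1) ⊔ J` for all such `n`; iterate (`Δ ^ n ≤ Δ ^ m ⊔ J ≤ Δ ^ (m + 1) ⊔ J ⊔ J`), and for `t ≤ n` use `Δ ^ n ≤ Δ ^ t`
(`1 ≤ t`: from `h.Δr`) or `t = 0`: there the claim is false in general, hence the hypothesis `1 ≤ t`.
-/

set_option autoImplicit false

namespace Pool.Agent.H24.CX

variable {F A ι : Type*} [Field F] [Ring A] [Algebra F A] {Δ J : Submodule F A} {a : ι → A} {w E : ι → ℕ}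

private def S1 (F : Type*) {A ι : Type*} [Field F] [Ring A] [Algebra F A] (a : ι → A) (w : ι → ℕ) (n : ℕ) :
    Submodule F A :=
  Submodule.span F {y | ∃ l : List ι, l.length = n ∧ (∀ i ∈ l, w i = 1) ∧ (l.map a).prod = y}

private theorem wt_one {l : List ι} (hl : ∀ i ∈ l, w i = 1) : wt w l = l.length := by
  induction l with
  | nil => simp [wt]
  | cons x t iht =>
    have h1 : wt w (x :: t) = w x + wt w t := by simp [wt]
    rw [h1, iht (fun i hi => hl i (List.mem_cons_of_mem _ hi)), hl x List.mem_cons_self,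
      List.length_cons]
    omega

private theorem S1_le (h : Strs Δ J a w E) (n : ℕ) : S1 F a w n ≤ Δ ^ n := by
  unfold S1
  rw [Submodule.span_le]
  rintro y ⟨l, hl, hw, rfl⟩
  have := prod_mem_wt h l
  rw [wt_one hw, hl] at this
  exact this

private theorem S1_mul (n : ℕ) {x y : A} (hx : x ∈ S1 F a w n)
    (hy : y ∈ Submodule.span F (a '' {i | w i = 1})) : x * y ∈ S1 F a w (n + 1) := by
  have h1 : x * y ∈ S1 F a w n * Submodule.span F (a '' {i | w i = 1}) := Submodule.mul_mem_mul hx hy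
  unfold S1 at h1
  rw [Submodule.span_mul_span] at h1
  unfold S1
  refine Submodule.span_mono ?_ h1
  rintro z ⟨u, ⟨l, hl, hw, rfl⟩, v, ⟨i, hi, rfl⟩, rfl⟩
  refine ⟨l ++ [i], by simp [hl], ?_, by simp⟩
  intro j hj
  rcases List.mem_append.1 hj with hj | hj
  · exact hw j hj
  · rw [List.mem_singleton] at hj
    rw [hj]
    exact hi

private theorem step1 (h : Strs Δ J a w E)
    (h1 : Δ ≤ Submodule.span F (a '' {i | w i = 1}) ⊔ Δ ^ 2 ⊔ J) (n : ℕ) :
    Δ ^ (n + 1) ≤ S1 F a w (n + 1) ⊔ Δ ^ (n + 1 + 1) ⊔ J := by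
  induction n with
  | zero =>
    rw [zero_add, pow_one]
    refine h1.trans (sup_le_sup_right (sup_le_sup_right ?_ _) _)
    unfold S1
    refine Submodule.span_mono ?_
    rintro z ⟨i, hi, rfl⟩
    refine ⟨[i], rfl, ?_, by simp⟩
    intro j hj
    rw [List.mem_singleton] at hj
    rw [hj]
    exact hi
  | succ n ih =>
    rw [pow_succ Δ (n + 1), Submodule.mul_le]
    intro x hx y hy
    obtain ⟨x12, hx12, x3, hx3, rfl⟩ := Submodule.mem_sup.1 (ih hx)
    obtain ⟨x1, hx1, x2, hx2, rfl⟩ := Submodule.mem_sup.1 hx12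
    obtain ⟨y12, hy12, y3, hy3, e⟩ := Submodule.mem_sup.1 (h1 hy)
    obtain ⟨y1, hy1, y2, hy2, e'⟩ := Submodule.mem_sup.1 hy12
    have g3 : x3 * y ∈ J := h.Jr (Submodule.mul_mem_mul hx3 Submodule.mem_top)
    have g2 : x2 * y ∈ Δ ^ (n + 1 + 1 + 1) := by
      rw [pow_succ Δ (n + 1 + 1)]
      exact Submodule.mul_mem_mul hx2 hy
    have g13 : x1 * y3 ∈ J := h.Jl (Submodule.mul_mem_mul Submodule.mem_top hy3)
    have g12 : x1 * y2 ∈ Δ ^ (n + 1 + 1 + 1) := by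
      have e3 : n + 1 + 1 + 1 = (n + 1) + 2 := by omega
      rw [e3, pow_add]
      exact Submodule.mul_mem_mul (S1_le h _ hx1) hy2
    have g11 : x1 * y1 ∈ S1 F a w (n + 1 + 1) := S1_mul _ hx1 hy1
    have e2 : (x1 + x2 + x3) * y = x1 * y1 + (x1 * y2 + x2 * y) + (x1 * y3 + x3 * y) := by
      have e5 : x1 * y = x1 * y1 + x1 * y2 + x1 * y3 := by
        rw [← mul_add, e', ← mul_add, e]
      rw [add_mul, add_mul, e5]
      abel
    rw [e2]
    refine Submodule.add_mem _ (Submodule.add_mem _ ?_ ?_) ?_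
    · exact Submodule.mem_sup_left (Submodule.mem_sup_left g11)
    · exact Submodule.mem_sup_left (Submodule.mem_sup_right (Submodule.add_mem _ g12 g2))
    · exact Submodule.mem_sup_right (Submodule.add_mem _ g13 g3)

private theorem pow_top_le (h : Strs Δ J a w E) {t : ℕ} (ht : 1 ≤ t) : Δ ^ t * ⊤ ≤ Δ ^ t := by
  obtain ⟨s, rfl⟩ : ∃ s, t = s + 1 := ⟨t - 1, by omega⟩
  rw [pow_succ, mul_assoc]
  exact mul_le_mul_right h.Δr _

theorem pow_le_pow [Fintype ι] (h : Strs Δ J a w E)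
    (h1 : Δ ≤ Submodule.span F (a '' {i | w i = 1}) ⊔ Δ ^ 2 ⊔ J) {n : ℕ}
    (hn : ∑ i, (E i - 1) * w i < n) {t : ℕ} (ht : 1 ≤ t) : Δ ^ n ≤ Δ ^ t ⊔ J := by
  have key : ∀ m : ℕ, ∑ i, (E i - 1) * w i < m → Δ ^ m ≤ Δ ^ (m + 1) ⊔ J := by
    intro m hm
    obtain ⟨k, rfl⟩ : ∃ k, m = k + 1 := ⟨m - 1, by omega⟩
    refine (step1 h h1 k).trans ?_
    refine sup_le (sup_le ?_ le_sup_left) le_sup_right
    unfold S1
    rw [Submodule.span_le]
    rintro y ⟨l, hl, hw, rfl⟩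
    have h2 := prod_mem h l (by rw [wt_one hw, hl]; exact hm)
    rw [wt_one hw, hl] at h2
    exact h2
  have key2 : ∀ m : ℕ, Δ ^ n ≤ Δ ^ (n + m) ⊔ J := by
    intro m
    induction m with
    | zero => exact le_sup_left
    | succ m ih =>
      refine ih.trans (sup_le ?_ le_sup_right)
      exact key (n + m) (by omega)
  rcases le_or_gt t n with htn | htn
  · have e : Δ ^ n = Δ ^ t * Δ ^ (n - t) := by
      rw [← pow_add]; congr 1; omega
    rw [e]
    exact ((mul_le_mul_right le_top _).trans (pow_top_le h ht)).trans le_sup_left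
  · have := key2 (t - n)
    rwa [show n + (t - n) = t by omega] at this

end Pool.Agent.H24.CX
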