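import Pool.Agent.H24.CX.Jid
import Pool.Agent.H24.CX.Gen
import Pool.Agent.H24.CX.PbC

/-!
# CX.Lett : the augmentation ideal of `G / D_(m+1)`

PROOF. `pow_le_pow` with `J = Jm p G m`, letters `x ∈ ι = {x : ℕ × G // x.1 < m ∧ x.2 ∈ Y x.1}` (finite; `Fintype.ofFinite`), `a x = u p x.1.2`, `w x = x.1.1 + 1`, `E x = p`.
`two`: `p ≥ 2`. `mem`: `hY1`. `swap`: letters `x, y` of weights `w, w'`: `u x u y - u y u x = u (cm x y) + d`, `d ∈ Δ ^ (w + w' + 1)` (`u_cm_mod`), `InD (w + w') (cm x y)` (`InD_cm`); if `w + w' ≤ m`: `hY2` for `n = w + w' - 1 < m`; otherwise `InD (m + 1)` (`InD_mono`), so `u (cm x y) ∈ J`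
(`u_mem_Jm`). `pow`: `u x ^ p = u (x ^ p)` (`u_pow` with `e = 1`), `InD (p w) (x ^ p)` (`InD_pow`), the same two cases. `h1`: every `u g` is in `span (u '' Y 0) ⊔ Δ ^ 2` (`hY2`, `InD_one`), the elements of `Y 0` are letters of weight `1` (`0 < m`); `Aug` is the span of the `u g`.
`∑ x : ι, (p - 1) * w x = (p - 1) * ∑ n ∈ range m, (n + 1) * (Y n).card` (the equivalence of `ι` with `Σ n : Fin m, Y n`, or `≤` by `Finset.sum_fiberwise`/`Finset.sum_sigma`), `n = r + 1`, and `t` from `aug_le_Jm`.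
-/

set_option autoImplicit false

namespace Pool.Agent.H24.CX

open Pool.Agent.H67.PG

variable {p : ℕ} [Fact p.Prime] {G : Type} [Group G]

theorem aug_pow_le_Jm {S : Set G} (hSf : S.Finite) (hS : Subgroup.closure S = ⊤) (hG : IsPGroup p G)
    (Y : ℕ → Finset G) (hY1 : ∀ n, ∀ x ∈ Y n, InD p (n + 1) x)
    (hY2 : ∀ n, ∀ g : G, InD p (n + 1) g →
      u p g ∈ Submodule.span (ZMod p) (u p '' (Y n : Set G)) ⊔ Aug p G ^ (n + 2))
    {m : ℕ} (hm : 1 ≤ m) :
    Aug p G ^ ((p - 1) * (∑ n ∈ Finset.range m, (n + 1) * (Y n).card) + 1) ≤ Jm p G m := by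
  classical
  let ι : Type := Σ n : Fin m, {x // x ∈ Y n}
  let a : ι → MonoidAlgebra (ZMod p) G := fun i => u p i.2.1
  let w : ι → ℕ := fun i => (i.1 : ℕ) + 1
  -- the rule for one element
  have key : ∀ (W : ℕ) (g : G), 1 ≤ W → InD p W g →
      u p g ∈ Submodule.span (ZMod p) (a '' {l | w l = W}) ⊔ Aug p G ^ (W + 1) ⊔ Jm p G m := by
    intro W g hW hg
    rcases Nat.lt_or_ge m W with h | h
    · exact Submodule.mem_sup_right (u_mem_Jm (InD_mono (by omega) (by omega) hg))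
    · obtain ⟨k, rfl⟩ : ∃ k, W = k + 1 := ⟨W - 1, by omega⟩
      refine Submodule.mem_sup_left ?_
      have h1 : Submodule.span (ZMod p) (u p '' (Y k : Set G)) ≤
          Submodule.span (ZMod p) (a '' {l | w l = k + 1}) := by
        refine Submodule.span_mono ?_
        rintro _ ⟨y, hy, rfl⟩
        exact ⟨⟨⟨k, by omega⟩, ⟨y, hy⟩⟩, rfl, rfl⟩
      have h2 : Submodule.span (ZMod p) (u p '' (Y k : Set G)) ⊔ Aug p G ^ (k + 2) ≤
          Submodule.span (ZMod p) (a '' {l | w l = k + 1}) ⊔ Aug p G ^ (k + 1 + 1) :=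
        sup_le_sup_right h1 _
      exact h2 (hY2 k g hg)
  have hst : Strs (Aug p G) (Jm p G m) a w (fun _ => p) := by
    refine ⟨aug_mul_top, top_mul_aug, Jm_r m, Jm_l m, fun i => Nat.succ_pos _, fun i => ?_,
      fun i => (Fact.out : p.Prime).two_le, fun i j => ?_, fun i => ?_⟩
    · exact hY1 i.1 i.2.1 i.2.2
    · have hi : InD p (w i) i.2.1 := hY1 i.1 i.2.1 i.2.2
      have hj : InD p (w j) j.2.1 := hY1 j.1 j.2.1 j.2.2
      have h1 := u_cm_mod (Nat.succ_pos _) hi hj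
      have h2 := key (w i + w j) (cm i.2.1 j.2.1) (Nat.le_add_right_of_le (Nat.succ_pos _))
        (InD_cm (Nat.succ_pos _) hi hj)
      have h3 : a i * a j - a j * a i = (u p i.2.1 * u p j.2.1 - u p j.2.1 * u p i.2.1 -
          u p (cm i.2.1 j.2.1)) + u p (cm i.2.1 j.2.1) := by
        rw [sub_add_cancel]
      rw [h3]
      exact add_mem (Submodule.mem_sup_left (Submodule.mem_sup_right h1)) h2
    · have hi : InD p (w i) i.2.1 := hY1 i.1 i.2.1 i.2.2
      have h1 := u_pow (p := p) i.2.1 1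
      rw [pow_one] at h1
      show u p i.2.1 ^ p ∈ _
      rw [h1]
      exact key (p * w i) _ (Nat.mul_pos (Fact.out : p.Prime).pos (Nat.succ_pos _)) (InD_pow hi)
  obtain ⟨t, ht, htJ⟩ := aug_le_Jm hSf hS hG m
  have h1 : Aug p G ≤ Submodule.span (ZMod p) (a '' {i | w i = 1}) ⊔ Aug p G ^ 2 ⊔ Jm p G m := by
    conv_lhs => rw [Aug]
    rw [Submodule.span_le]
    rintro _ ⟨g, rfl⟩
    exact key 1 g le_rfl (InD_one g)
  have hsum : ∑ i : ι, (p - 1) * w i = (p - 1) * ∑ n ∈ Finset.range m, (n + 1) * (Y n).card := by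
    rw [← Finset.mul_sum, Fintype.sum_sigma,
      ← Fin.sum_univ_eq_sum_range (fun n => (n + 1) * (Y n).card) m]
    congr 1
    refine Finset.sum_congr rfl fun n _ => ?_
    show ∑ _x : {x // x ∈ Y n}, ((n : ℕ) + 1) = _
    rw [Finset.sum_const, Finset.card_univ, Fintype.card_coe, smul_eq_mul, mul_comm]
  have h2 := pow_le_pow hst h1 (n := (p - 1) * (∑ n ∈ Finset.range m, (n + 1) * (Y n).card) + 1)
    (by rw [hsum]; omega) ht
  exact h2.trans (sup_le htJ le_rfl)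

end Pool.Agent.H24.CX
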