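import Pool.Agent.H24.CX.Jmp
import Pool.Agent.H24.CX.Bas
import Pool.Agent.H24.CX.Lett
import Pool.Agent.H24.CX.BalQ

/-!
# CX.Gro : growth of residually finite infinite `p`-groups

PROOF. `exists_basis n` for every `n` (`quot_finite`, `Dn_index`), `choose Y`. `(Y n).card ≥ 1`: if `Y n = ∅` then `u g ∈ Δ ^ (n + 2)` for all `g ∈ D_(n+1)`, against `jump` for `i = n + 1`. `s = ∑ n ∈ range m, (Y n).card ≥ m`. By induction `p ^ (∑ n ∈ range m, (Y n).card) ≤ (Dn p G m).index` (`Dn_zero`, index `1`).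
`r = (p - 1) * (m * s) ≥ (p - 1) * ∑ (n + 1) card (Y n)`; `Δ ^ (r + 1) ≤ Δ ^ (.. + 1) ≤ Jm` (`aug_anti`, `aug_pow_le_Jm`); `index_le_ball`.
-/

set_option autoImplicit false

namespace Pool.Agent.H24.CX

open Pool.Agent.H67.PG

variable {p : ℕ} [Fact p.Prime] {G : Type} [Group G]

theorem growth_ball [Infinite G] {S : Set G} (hSf : S.Finite) (hS : Subgroup.closure S = ⊤)
    (hG : IsPGroup p G) (hRF : RF G) {m : ℕ} (hm : 1 ≤ m) :
    ∃ s, m ≤ s ∧ p ^ s ≤ (ball S ((p - 1) * (m * s))).ncard := by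
  have hB := fun n => exists_basis (p := p) (G := G) n (quot_finite hSf hS (by omega))
    (Dn_index hSf hS (n + 1))
  choose Y hY1 hY2 hY3 using hB
  have hY4 : ∀ n, 1 ≤ (Y n).card := by
    intro n
    by_contra hc
    have h0 : Y n = ∅ := Finset.card_eq_zero.1 (by omega)
    obtain ⟨g, h1, h2⟩ := jump hSf hS hG hRF (i := n + 1) (by omega)
    apply h2
    have h3 := hY2 n g h1
    rw [h0, Finset.coe_empty, Set.image_empty, Submodule.span_empty, bot_sup_eq] at h3
    exact h3
  have h5 : ∀ k, p ^ (∑ n ∈ Finset.range k, (Y n).card) ≤ (Dn p G k).index := by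
    intro k
    induction k with
    | zero => rw [Finset.range_zero, Finset.sum_empty, pow_zero, Dn_zero, Subgroup.index_top]
    | succ k ih =>
      rw [Finset.sum_range_succ, pow_add, mul_comm]
      exact (Nat.mul_le_mul_left _ ih).trans (hY3 k)
  have h6 := aug_pow_le_Jm hSf hS hG Y hY1 hY2 hm
  have h7 : ∑ n ∈ Finset.range m, (n + 1) * (Y n).card ≤ m * ∑ n ∈ Finset.range m, (Y n).card := by
    rw [Finset.mul_sum]
    refine Finset.sum_le_sum fun n hn => Nat.mul_le_mul_right _ ?_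
    have := Finset.mem_range.1 hn
    omega
  have h8 : Aug p G ^ ((p - 1) * (m * ∑ n ∈ Finset.range m, (Y n).card) + 1) ≤ Jm p G m := by
    refine (aug_anti (by omega) ?_).trans h6
    have := Nat.mul_le_mul_left (p - 1) h7
    omega
  refine ⟨∑ n ∈ Finset.range m, (Y n).card, ?_, (h5 m).trans (index_le_ball hSf hS h8)⟩
  calc m = ∑ _n ∈ Finset.range m, 1 := by rw [Finset.sum_const, Finset.card_range, smul_eq_mul, mul_one]
    _ ≤ _ := Finset.sum_le_sum fun n _ => hY4 n

end Pool.Agent.H24.CX
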