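import Pool.Agent.H24.CX.Qfin

/-!
# CX.Jid : the ideal of a dimension subgroup

`Jm p G m` is the kernel of `F_p[G] → F_p[G / D_(m+1)]`. `Jm_r`, `Jm_l`: `Submodule.mul_le`, multiplicativity. `u_mem_Jm`: `amap_u`, `mk g = 1`, `u_one`. `aug_le_Jm`: the quotient is a finite `p`-group (`Dn_index`), `aug_nilp`, `aug_map`.
-/

set_option autoImplicit false

namespace Pool.Agent.H24.CX

open Pool.Agent.H67.PG

variable {p : ℕ} [Fact p.Prime] {G : Type} [Group G]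

instance (n : ℕ) : (Dn p G n).Normal := Dn_normal n

/-- the kernel of `F_p[G] → F_p[G / D_(m+1)]` -/
noncomputable def Jm (p : ℕ) (G : Type) [Group G] (m : ℕ) : Submodule (ZMod p) (MonoidAlgebra (ZMod p) G) :=
  letI := Dn_normal (p := p) (G := G) m
  LinearMap.ker (amap p (QuotientGroup.mk' (Dn p G m))).toLinearMap

private theorem jid_mem {m : ℕ} {x : MonoidAlgebra (ZMod p) G} :
    x ∈ Jm p G m ↔ amap p (QuotientGroup.mk' (Dn p G m)) x = 0 := Iff.rfl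

theorem Jm_r (m : ℕ) : Jm p G m * ⊤ ≤ Jm p G m := by
  refine Submodule.mul_le.2 fun x hx y _ => ?_
  rw [jid_mem] at hx ⊢
  rw [map_mul, hx, zero_mul]

theorem Jm_l (m : ℕ) : ⊤ * Jm p G m ≤ Jm p G m := by
  refine Submodule.mul_le.2 fun x _ y hy => ?_
  rw [jid_mem] at hy ⊢
  rw [map_mul, hy, mul_zero]

theorem u_mem_Jm {m : ℕ} {g : G} (h : InD p (m + 1) g) : u p g ∈ Jm p G m := by
  rw [jid_mem, amap_u]
  have h1 : QuotientGroup.mk' (Dn p G m) g = 1 := (QuotientGroup.eq_one_iff g).2 h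
  rw [h1, u_one]

theorem aug_le_Jm {S : Set G} (hSf : S.Finite) (hS : Subgroup.closure S = ⊤) (hG : IsPGroup p G) (m : ℕ) :
    ∃ t, 1 ≤ t ∧ Aug p G ^ t ≤ Jm p G m := by
  have hfin : Finite (G ⧸ Dn p G m) :=
    (Nat.finite_of_card_ne_zero (show Nat.card (G ⧸ Dn p G m) ≠ 0 from Dn_index hSf hS m))
  obtain ⟨t, ht, h0⟩ := aug_nilp (p := p) (hG.to_quotient (Dn p G m))
  refine ⟨t, ht, fun x hx => ?_⟩
  rw [jid_mem]
  have h1 := aug_map (QuotientGroup.mk' (Dn p G m)) hx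
  rw [h0] at h1
  exact (Submodule.mem_bot _).1 h1

end Pool.Agent.H24.CX
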