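import Pool.Agent.H24.CX.Nil

/-!
# CX.Qfin : finiteness

`quot_finite`: `S` finite with `closure S = ⊤` gives a surjective `φ : FreeGroup (Fin d) →* G` (enumerate `S`; `FreeGroup.lift`, the range contains `S`), then `H67.PG.finite_quot` and `Module.finite_of_finite (ZMod p)`.
`Dn_index`: `H67.PG.dimSub_index`. `rf_InD`: let `g ≠ 1`, `N` normal of finite index, `g ∉ N`, `Q = G ⧸ N` a finite `p`-group (`IsPGroup.to_quotient`); `Aug p Q ^ t = ⊥` (`aug_nilp`); `amap (mk) (u g) = u (mk g) ∈ ⊥` (`amap_u`, `aug_map`), so `mk g = 1` (`u_eq_zero`), a contradiction.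
`finite_of_stop`: `Dn p G (n₀ - 1)` is trivial by `h` and `rf_InD`, and has finite index.
-/

set_option autoImplicit false

namespace Pool.Agent.H24.CX

open Pool.Agent.H67.PG

variable {p : ℕ} [Fact p.Prime] {G : Type} [Group G]

theorem quot_finite {S : Set G} (hSf : S.Finite) (hS : Subgroup.closure S = ⊤) {n : ℕ} (hn : 1 ≤ n) :
    Finite (MonoidAlgebra (ZMod p) G ⧸ Aug p G ^ n) := by
  classical
  have := hSf.to_subtype
  obtain ⟨d, ⟨e⟩⟩ := Finite.exists_equiv_fin S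
  let φ : FreeGroup (Fin d) →* G := FreeGroup.lift fun i => ((e.symm i : S) : G)
  have hφ : Function.Surjective φ := by
    rw [← MonoidHom.range_eq_top, eq_top_iff, ← hS, Subgroup.closure_le]
    intro x hx
    exact ⟨FreeGroup.of (e ⟨x, hx⟩), by
      show FreeGroup.lift (fun i => ((e.symm i : S) : G)) (FreeGroup.of (e ⟨x, hx⟩)) = x
      rw [FreeGroup.lift_apply_of, e.symm_apply_apply]⟩
  have : Module.Finite (ZMod p) (MonoidAlgebra (ZMod p) G ⧸ Aug p G ^ n) := finite_quot φ hφ (by omega)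
  exact Module.finite_of_finite (ZMod p)

theorem Dn_index {S : Set G} (hSf : S.Finite) (hS : Subgroup.closure S = ⊤) (n : ℕ) :
    (Dn p G n).index ≠ 0 := by
  have := quot_finite (p := p) hSf hS (Nat.succ_pos n)
  exact dimSub_index (Nat.succ_pos n)

theorem rf_InD (hG : IsPGroup p G) (hRF : RF G) {g : G} (h : ∀ n, 1 ≤ n → InD p n g) : g = 1 := by
  by_contra hg
  obtain ⟨N, hN, hNi, hgN⟩ := hRF g hg
  have := hN
  have hfi : N.FiniteIndex := ⟨hNi⟩
  have : Finite (G ⧸ N) := Subgroup.finite_quotient_of_finiteIndex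
  obtain ⟨t, ht, hnil⟩ := aug_nilp (p := p) (Q := G ⧸ N) (hG.to_quotient N)
  have h1 := aug_map (QuotientGroup.mk' N) (h t ht)
  rw [hnil, Submodule.mem_bot, amap_u] at h1
  have h2 := u_eq_zero h1
  rw [QuotientGroup.mk'_apply, QuotientGroup.eq_one_iff] at h2
  exact hgN h2

theorem finite_of_stop {S : Set G} (hSf : S.Finite) (hS : Subgroup.closure S = ⊤) (hG : IsPGroup p G)
    (hRF : RF G) {n₀ : ℕ} (hn : 1 ≤ n₀) (h : ∀ t, 1 ≤ t → Aug p G ^ n₀ ≤ Aug p G ^ t) : Finite G := by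
  have h1 : Dn p G (n₀ - 1) = ⊥ := by
    rw [eq_bot_iff]
    intro g hg
    rw [mem_Dn, Nat.sub_add_cancel hn] at hg
    exact Subgroup.mem_bot.2 (rf_InD hG hRF fun t ht => h t ht hg)
  have h2 := Dn_index (p := p) hSf hS (n₀ - 1)
  rw [h1, Subgroup.index_bot] at h2
  exact (Nat.card_ne_zero.1 h2).2

end Pool.Agent.H24.CX
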