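import Pool.Agent.H24.CX.Stp
import Pool.Agent.H24.CX.Qfin

/-!
# CX.Jmp : all quotients `D_i / D_(i+1)` are nontrivial
-/

set_option autoImplicit false

namespace Pool.Agent.H24.CX

open Pool.Agent.H67.PG

variable {p : ℕ} [Fact p.Prime] {G : Type} [Group G]

theorem jump [Infinite G] {S : Set G} (hSf : S.Finite) (hS : Subgroup.closure S = ⊤) (hG : IsPGroup p G)
    (hRF : RF G) {i : ℕ} (h1 : 1 ≤ i) : ∃ g : G, InD p i g ∧ ¬ InD p (i + 1) g := by
  by_contra hc
  push Not at hc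
  obtain ⟨n₀, hn, h⟩ := stop hSf hS hG h1 hc
  exact not_finite_iff_infinite.2 inferInstance (finite_of_stop hSf hS hG hRF hn h)

end Pool.Agent.H24.CX
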