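import Pool.Agent.H24.CX.Ug

/-!
# CX.Nil : the augmentation ideal of a finite `p`-group is nilpotent

PROOF. `A = F_p[Q]` is finite. The powers `Δ ^ n`, `n ≥ 1`, decrease (`aug_anti`), so `Δ ^ n = Δ ^ (n + 1)` for some `n ≥ 1` (otherwise the `finrank` decreases for ever). Suppose `V = Δ ^ n ≠ ⊥`. `Q` acts on the finite `F_p`-space of the linear functionals
`f : V →ₗ F_p` by `(g f)(v) = f (g⁻¹ v)` (`V` is stable: `mul_mem_aug'`); the number of fixed points is divisible by `p` (`IsPGroup.card_modEq_card_fixedPoints`, the number of functionals is a power `p ^ k`, `k ≥ 1`), and `0` is fixed, so there is a fixed `f ≠ 0`: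
`f (u g * v) = f (g v) - f v = 0`, so `f` vanishes on `Δ * V = Δ ^ (n + 1) = V`. Contradiction; so `Δ ^ n = ⊥`.
(Other proof: induction on the order with a central element `z` of order `p`: `(z - 1) ^ p = 0` and the ideal of `z - 1` is the kernel of `F_p[Q] → F_p[Q / z]`. Or: left multiplications by `u g` generate a nilpotent algebra by the fixed point theorem.)
`aug_map`: the algebra map `F_p[G] → F_p[Q]` maps `Δ ^ n` into `Δ ^ n` (`Submodule.map_pow`, `Submodule.map_span`).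
-/

set_option autoImplicit false

namespace Pool.Agent.H24.CX

open Pool.Agent.H67.PG

variable {p : ℕ} [Fact p.Prime]

theorem aug_nilp {Q : Type} [Group Q] [Finite Q] (hQ : IsPGroup p Q) : ∃ t : ℕ, 1 ≤ t ∧ Aug p Q ^ t = ⊥ := by
  classical
  have hfin : Module.Finite (ZMod p) (MonoidAlgebra (ZMod p) Q) := by
    infer_instance
  -- the powers become constant
  obtain ⟨n, hn⟩ : ∃ n : ℕ, 1 ≤ n ∧ Aug p Q ^ n = Aug p Q ^ (n + 1) := by
    obtain ⟨n, hn⟩ := IsArtinian.monotone_stabilizes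
      (R := ZMod p) (M := MonoidAlgebra (ZMod p) Q)
      ⟨fun n => OrderDual.toDual (Aug p Q ^ (n + 1)), fun m n hmn => aug_anti (by omega) (by omega)⟩
    exact ⟨n + 1, by omega, hn (n + 1) (by omega)⟩
  refine ⟨n, hn.1, ?_⟩
  by_contra hne
  -- the action on the functionals
  let R : Q → ↥(Aug p Q ^ n) →ₗ[ZMod p] ↥(Aug p Q ^ n) := fun g =>
    { toFun := fun v => ⟨v.1 * MonoidAlgebra.of (ZMod p) Q g, mul_mem_aug hn.1 v.2 _⟩
      map_add' := fun v w => Subtype.ext (add_mul _ _ _)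
      map_smul' := fun c v => Subtype.ext (smul_mul_assoc _ _ _) }
  let _ : MulAction Q (↥(Aug p Q ^ n) →ₗ[ZMod p] ZMod p) :=
    { smul := fun g f => f.comp (R g)
      one_smul := by
        intro f
        ext v
        show f (R 1 v) = f v
        congr 1
        exact Subtype.ext (by show v.1 * MonoidAlgebra.of (ZMod p) Q 1 = v.1; rw [map_one, mul_one])
      mul_smul := by
        intro g h f
        ext v
        show f (R (g * h) v) = f (R h (R g v))
        congr 1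
        exact Subtype.ext (by
          show v.1 * MonoidAlgebra.of (ZMod p) Q (g * h) =
            v.1 * MonoidAlgebra.of (ZMod p) Q g * MonoidAlgebra.of (ZMod p) Q h
          rw [map_mul, mul_assoc]) }
  have hnt : Nontrivial ↥(Aug p Q ^ n) := by
    rw [Submodule.nontrivial_iff_ne_bot]
    exact hne
  have hfinD : Finite (↥(Aug p Q ^ n) →ₗ[ZMod p] ZMod p) := Module.finite_of_finite (ZMod p)
  have hdvd : p ∣ Nat.card (↥(Aug p Q ^ n) →ₗ[ZMod p] ZMod p) := by
    rw [Module.natCard_eq_pow_finrank (K := ZMod p), Nat.card_zmod]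
    refine dvd_pow_self p ?_
    rw [Module.finrank_linearMap, Module.finrank_self, mul_one]
    exact Module.finrank_pos.ne'
  obtain ⟨f, hf, hf0⟩ := hQ.exists_fixed_point_of_prime_dvd_card_of_fixed_point _ hdvd
    (a := (0 : ↥(Aug p Q ^ n) →ₗ[ZMod p] ZMod p))
    (fun g => by
      ext v
      rfl)
  apply hf0
  symm
  -- the functional vanishes
  have h1 : ∀ v : MonoidAlgebra (ZMod p) Q, ∀ hv : v ∈ Aug p Q ^ n, ∀ w ∈ Aug p Q,
      ∀ h : v * w ∈ Aug p Q ^ n, f ⟨v * w, h⟩ = 0 := by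
    intro v hv w hw
    refine Submodule.span_induction ?_ ?_ ?_ ?_ hw
    · rintro _ ⟨g, rfl⟩ h
      have h2 := congrArg (fun f' => f' ⟨v, hv⟩) (hf g)
      have h3 : f (R g ⟨v, hv⟩) = f ⟨v, hv⟩ := h2
      have h4 : (⟨v * (MonoidAlgebra.of (ZMod p) Q g - 1), h⟩ : ↥(Aug p Q ^ n)) =
          R g ⟨v, hv⟩ - ⟨v, hv⟩ := by
        apply Subtype.ext
        show v * (MonoidAlgebra.of (ZMod p) Q g - 1) = v * MonoidAlgebra.of (ZMod p) Q g - v
        rw [mul_sub, mul_one]
      rw [h4, map_sub, h3, sub_self]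
    · intro h
      have h4 : (⟨v * 0, h⟩ : ↥(Aug p Q ^ n)) = 0 := Subtype.ext (mul_zero v)
      rw [h4, map_zero]
    · intro x y _ _ hx hy h
      have e1 : v * x ∈ Aug p Q ^ n := mul_mem_aug hn.1 hv x
      have e2 : v * y ∈ Aug p Q ^ n := mul_mem_aug hn.1 hv y
      have h4 : (⟨v * (x + y), h⟩ : ↥(Aug p Q ^ n)) = ⟨v * x, e1⟩ + ⟨v * y, e2⟩ :=
        Subtype.ext (mul_add v x y)
      rw [h4, map_add, hx e1, hy e2, add_zero]
    · intro c x _ hx h
      have e1 : v * x ∈ Aug p Q ^ n := mul_mem_aug hn.1 hv x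
      have h4 : (⟨v * (c • x), h⟩ : ↥(Aug p Q ^ n)) = c • ⟨v * x, e1⟩ :=
        Subtype.ext (mul_smul_comm c v x)
      rw [h4, map_smul, hx e1, smul_zero]
  ext ⟨v, hv⟩
  have hv' : v ∈ Aug p Q ^ n * Aug p Q := by
    rw [← pow_succ, ← hn.2]
    exact hv
  refine Submodule.mul_induction_on' (C := fun v _ => ∀ h : v ∈ Aug p Q ^ n, f ⟨v, h⟩ = 0)
    ?_ ?_ hv' hv
  · intro a ha b hb h
    exact h1 a ha b hb h
  · intro x hx y hy h2 h3 h
    have e1 : x ∈ Aug p Q ^ n := by
      rw [hn.2, pow_succ]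
      exact hx
    have e2 : y ∈ Aug p Q ^ n := by
      rw [hn.2, pow_succ]
      exact hy
    have h4 : (⟨x + y, h⟩ : ↥(Aug p Q ^ n)) = ⟨x, e1⟩ + ⟨y, e2⟩ := rfl
    rw [h4, map_add, h2 e1, h3 e2, add_zero]

/-- the algebra map induced by a homomorphism -/
noncomputable def amap (p : ℕ) {G Q : Type} [Group G] [Group Q] (φ : G →* Q) :
    MonoidAlgebra (ZMod p) G →ₐ[ZMod p] MonoidAlgebra (ZMod p) Q :=
  MonoidAlgebra.mapDomainAlgHom (ZMod p) (ZMod p) φ

theorem amap_u {G Q : Type} [Group G] [Group Q] (φ : G →* Q) (g : G) : amap p φ (u p g) = u p (φ g) := by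
  rw [u, u, map_sub, map_one]
  congr 1
  simp [amap]

theorem aug_map {G Q : Type} [Group G] [Group Q] (φ : G →* Q) {n : ℕ} {x : MonoidAlgebra (ZMod p) G}
    (hx : x ∈ Aug p G ^ n) : amap p φ x ∈ Aug p Q ^ n := by
  have h1 : (Aug p G).map (amap p φ).toLinearMap ≤ Aug p Q := by
    unfold Aug
    rw [Submodule.map_span, Submodule.span_le]
    rintro _ ⟨_, ⟨g, rfl⟩, rfl⟩
    refine Submodule.subset_span ⟨φ g, ?_⟩
    exact (amap_u φ g).symm
  have h2 : (Aug p G ^ n).map (amap p φ).toLinearMap ≤ Aug p Q ^ n := by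
    rw [Submodule.map_pow]
    exact pow_le_pow_left' h1 n
  exact h2 ⟨x, hx, rfl⟩

theorem u_eq_zero {G : Type} [Group G] {g : G} (h : u p g = 0) : g = 1 := by
  rw [u, sub_eq_zero] at h
  exact MonoidAlgebra.of_injective (h.trans (map_one _).symm)

end Pool.Agent.H24.CX
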