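import Pool.Agent.H24.CX.Defs

/-!
# CX.PbA : the product of a list of letters modulo a subspace depends on the list up to permutation

Let `k` be the length of the lists, and assume that all products of fewer than `k` letters of total weight `n` lie in `M = Δ ^ (n + 1) ⊔ J` (`ih`).
Then permuting a list of length `k` and weight `n` changes the product by an element of `M`.

PROOF. Show by induction on `List.Perm l l'`: for every `s` with `(s ++ l).length = k`, `wt w (s ++ l) = n` the difference
`((s ++ l).map a).prod - ((s ++ l').map a).prod` is in `M`. `nil`: `0`. `cons x`: use the induction hypothesis for `s ++ [x]`. `trans`: add (the lengths and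
weights of `l`, `l'` agree: `List.Perm.length_eq`, `List.Perm.sum_eq` for `map w`). `swap x y l`: the difference is `± P (a x a y - a y a x) Q` with `P = (s.map a).prod ∈ Δ ^ wt w s`,
`Q = (l.map a).prod ∈ Δ ^ wt w l` (a product of letters is in `Δ ^ (weight)`: `prod_mem_wt`). By `h.swap` the middle factor is a combination of letters `a z` with `w z = w x + w y`: then `P a z Q` is the product of the list
`s ++ z :: l` of length `k - 1` and weight `n`, in `M` by `ih`; plus an element of `Δ ^ (w x + w y + 1)`: the product is in `Δ ^ (n + 1)` (`pow_add`); plus an element of `J`: the product is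
in `J` (`h.Jl`, `h.Jr`). (Use `Submodule.mem_sup`, `Submodule.span_induction`; `n = wt s + w x + w y + wt l`.)
-/

set_option autoImplicit false

namespace Pool.Agent.H24.CX

variable {F A ι : Type*} [Field F] [Ring A] [Algebra F A] {Δ J : Submodule F A} {a : ι → A} {w E : ι → ℕ}

private theorem pba_cons (x : ι) (l : List ι) : wt w (x :: l) = w x + wt w l := by
  simp [wt]

private theorem pba_app (s l : List ι) : wt w (s ++ l) = wt w s + wt w l := by
  simp [wt]

theorem prod_mem_wt (h : Strs Δ J a w E) (l : List ι) : (l.map a).prod ∈ Δ ^ wt w l := by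
  induction l with
  | nil =>
    have h1 : wt w ([] : List ι) = 0 := rfl
    rw [h1, pow_zero, List.map_nil, List.prod_nil]
    exact Submodule.one_le.1 le_rfl
  | cons x l ih =>
    rw [pba_cons, List.map_cons, List.prod_cons, pow_add]
    exact Submodule.mul_mem_mul (h.mem x) ih

private theorem pba_swap (h : Strs Δ J a w E) {k n : ℕ}
    (ih : ∀ l : List ι, l.length < k → wt w l = n → (l.map a).prod ∈ Δ ^ (n + 1) ⊔ J)
    (s l : List ι) (x y : ι) (h1 : (s ++ (y :: x :: l)).length = k)
    (h2 : wt w (s ++ (y :: x :: l)) = n) :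
    (s.map a).prod * ((a y * a x - a x * a y) * (l.map a).prod) ∈ Δ ^ (n + 1) ⊔ J := by
  obtain ⟨P, hP⟩ : ∃ P, P = (s.map a).prod := ⟨_, rfl⟩
  obtain ⟨Q, hQ⟩ : ∃ Q, Q = (l.map a).prod := ⟨_, rfl⟩
  have hPm : P ∈ Δ ^ wt w s := by
    rw [hP]
    exact prod_mem_wt h s
  have hQm : Q ∈ Δ ^ wt w l := by
    rw [hQ]
    exact prod_mem_wt h l
  rw [pba_app, pba_cons, pba_cons] at h2
  rw [List.length_append, List.length_cons, List.length_cons] at h1
  have key : Submodule.span F (a '' {l | w l = w y + w x}) ⊔ Δ ^ (w y + w x + 1) ⊔ J ≤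
      (Δ ^ (n + 1) ⊔ J).comap ((LinearMap.mulLeft F P) ∘ₗ (LinearMap.mulRight F Q)) := by
    refine sup_le (sup_le ?_ ?_) ?_
    · rw [Submodule.span_le]
      rintro _ ⟨z, hz, rfl⟩
      show P * (a z * Q) ∈ Δ ^ (n + 1) ⊔ J
      have h3 : P * (a z * Q) = ((s ++ z :: l).map a).prod := by
        rw [hP, hQ, List.map_append, List.prod_append, List.map_cons, List.prod_cons]
      rw [h3]
      have hz' : w z = w y + w x := hz
      refine ih _ ?_ ?_
      · rw [List.length_append, List.length_cons]
        omega
      · rw [pba_app, pba_cons]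
        omega
    · intro v hv
      show P * (v * Q) ∈ Δ ^ (n + 1) ⊔ J
      refine Submodule.mem_sup_left ?_
      have h3 : P * (v * Q) ∈ Δ ^ wt w s * (Δ ^ (w y + w x + 1) * Δ ^ wt w l) :=
        Submodule.mul_mem_mul hPm (Submodule.mul_mem_mul hv hQm)
      rw [← pow_add, ← pow_add] at h3
      have h4 : wt w s + (w y + w x + 1 + wt w l) = n + 1 := by omega
      rw [h4] at h3
      exact h3
    · intro v hv
      show P * (v * Q) ∈ Δ ^ (n + 1) ⊔ J
      refine Submodule.mem_sup_right ?_
      refine h.Jl (Submodule.mul_mem_mul Submodule.mem_top ?_)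
      exact h.Jr (Submodule.mul_mem_mul hv Submodule.mem_top)
  rw [← hP, ← hQ]
  exact key (h.swap y x)

private theorem pba_perm (h : Strs Δ J a w E) {k n : ℕ}
    (ih : ∀ l : List ι, l.length < k → wt w l = n → (l.map a).prod ∈ Δ ^ (n + 1) ⊔ J)
    {l l' : List ι} (hl : l.Perm l') : ∀ s : List ι, (s ++ l).length = k → wt w (s ++ l) = n →
    ((s ++ l).map a).prod - ((s ++ l').map a).prod ∈ Δ ^ (n + 1) ⊔ J := by
  induction hl with
  | nil =>
    intro s _ _
    rw [sub_self]
    exact Submodule.zero_mem _
  | cons x _ ih2 =>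
    intro s h1 h2
    have h3 := ih2 (s ++ [x]) (by simpa using h1) (by simpa using h2)
    simpa using h3
  | swap x y l =>
    intro s h1 h2
    have h3 := pba_swap h ih s l x y h1 h2
    have h4 : ((s ++ (y :: x :: l)).map a).prod - ((s ++ (x :: y :: l)).map a).prod =
        (s.map a).prod * ((a y * a x - a x * a y) * (l.map a).prod) := by
      simp only [List.map_append, List.prod_append, List.map_cons, List.prod_cons]
      noncomm_ring
    rw [h4]
    exact h3
  | trans p1 p2 ih1 ih2 =>
    intro s h1 h2
    rename_i l₁ l₂ l₃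
    have h3 := ih1 s h1 h2
    have h4 := ih2 s (by
      rw [List.length_append] at h1 ⊢
      rw [← p1.length_eq]
      exact h1) (by
      rw [pba_app] at h2 ⊢
      rw [← h2, wt, wt, wt, (p1.map w).sum_eq])
    have h5 := Submodule.add_mem _ h3 h4
    rw [sub_add_sub_cancel] at h5
    exact h5

theorem perm_mod (h : Strs Δ J a w E) {k n : ℕ}
    (ih : ∀ l : List ι, l.length < k → wt w l = n → (l.map a).prod ∈ Δ ^ (n + 1) ⊔ J) {l l' : List ι}
    (hl : l.Perm l') (h1 : l.length = k) (h2 : wt w l = n) :
    (l.map a).prod - (l'.map a).prod ∈ Δ ^ (n + 1) ⊔ J := by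
  have h3 := pba_perm h ih hl [] (by simpa using h1) (by simpa using h2)
  simpa using h3

end Pool.Agent.H24.CX
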