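import Pool.Agent.H24.CX.PbA

/-!
# CX.PbB : lists of large weight

Finitely many letters. If the weight `n` of a list is larger than `∑ i, (E i - 1) * w i` then the product is in `Δ ^ (n + 1) ⊔ J`.

PROOF. Strong induction on the length. `wt w l = ∑ i, l.count i * w i` (`Finset.sum_list_map_count` or induction), so some `i` has `E i ≤ l.count i` (otherwise
`l.count i ≤ E i - 1` for all `i`). So `l` is a permutation of `List.replicate (E i) i ++ l'` (`List.perm_iff_count`, or `l.Perm (replicate (count) i ++ filter (· ≠ i))`, `List.Sublist`/`List.subperm`: `replicate_sublist_iff`/`le_count_iff_replicate_sublist` and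
`List.Subperm.exists_perm_append`-type lemmas). By `perm_mod` (the induction hypothesis gives `ih`) it is enough to treat this list; its product is `a i ^ E i * Q`, `Q = (l'.map a).prod ∈ Δ ^ wt w l'`. By `h.pow`, `a i ^ E i` is a combination of letters `a z`, `w z = E i * w i`:
`a z * Q` is the product of `z :: l'`, of length `< l.length` (`E i ≥ 2`) and of the same weight: induction; plus an element of `Δ ^ (E i * w i + 1)` (product in `Δ ^ (n + 1)`) plus an element of `J`.
-/

set_option autoImplicit false

namespace Pool.Agent.H24.CX

variable {F A ι : Type*} [Field F] [Ring A] [Algebra F A] {Δ J : Submodule F A} {a : ι → A} {w E : ι → ℕ}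

theorem wt_le_of_count [Fintype ι] [DecidableEq ι] (l : List ι) :
    wt w l = ∑ i, l.count i * w i := by
  induction l with
  | nil => simp [wt]
  | cons x t iht =>
    have h1 : wt w (x :: t) = w x + wt w t := by simp [wt]
    rw [h1, iht]
    have h2 : ∀ i, (x :: t).count i * w i = t.count i * w i + (if i = x then w i else 0) := by
      intro i
      rw [List.count_cons]
      by_cases hi : i = x
      · subst hi
        simp [add_mul]
      · have hi' : ¬ (x = i) := fun h => hi h.symm
        simp [hi, hi']
    rw [Finset.sum_congr rfl (fun i _ => h2 i), Finset.sum_add_distrib]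
    simp [add_comm]

theorem wt_append (l l' : List ι) : wt w (l ++ l') = wt w l + wt w l' := by
  simp [wt]

theorem wt_replicate (n : ℕ) (i : ι) : wt w (List.replicate n i) = n * w i := by
  simp [wt]

theorem wt_perm {l l' : List ι} (h : l.Perm l') : wt w l = wt w l' :=
  (h.map w).sum_eq

theorem prod_mem [Fintype ι] (h : Strs Δ J a w E) (l : List ι) (hl : ∑ i, (E i - 1) * w i < wt w l) :
    (l.map a).prod ∈ Δ ^ (wt w l + 1) ⊔ J := by
  classical
  have key : ∀ k : ℕ, ∀ l : List ι, l.length = k → (∑ i, (E i - 1) * w i < wt w l) →
      (l.map a).prod ∈ Δ ^ (wt w l + 1) ⊔ J := by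
    intro k
    induction k using Nat.strong_induction_on with
    | _ k ihk =>
      intro l hlen hl
      obtain ⟨i, hi⟩ : ∃ i, E i ≤ l.count i := by
        by_contra hcon
        push Not at hcon
        have h1 : wt w l ≤ ∑ i, (E i - 1) * w i := by
          rw [wt_le_of_count l]
          apply Finset.sum_le_sum
          intro i _
          exact Nat.mul_le_mul_right _ (Nat.le_sub_one_of_lt (hcon i))
        exact absurd h1 (not_le.2 hl)
      obtain ⟨l', hl'⟩ := (List.replicate_sublist_iff.2 hi).exists_perm_append
      have hw : wt w l = E i * w i + wt w l' := by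
        rw [wt_perm hl', wt_append, wt_replicate]
      have hlen' : k = E i + l'.length := by
        rw [← hlen, hl'.length_eq]
        simp
      have hE := h.two i
      have hdiff := perm_mod h (k := k) (n := wt w l)
        (fun m hm hmw => by
          have h2 := ihk m.length hm m rfl (by rw [hmw]; exact hl)
          rwa [hmw] at h2) hl' hlen rfl
      have hmain : ((List.replicate (E i) i ++ l').map a).prod ∈ Δ ^ (wt w l + 1) ⊔ J := by
        rw [List.map_append, List.prod_append, List.map_replicate, List.prod_replicate]
        have hQ := prod_mem_wt h l'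
        obtain ⟨y12, hy12, y3, hy3, hy⟩ := Submodule.mem_sup.1 (h.pow i)
        obtain ⟨y1, hy1, y2, hy2, hy'⟩ := Submodule.mem_sup.1 hy12
        rw [← hy, ← hy', add_mul, add_mul]
        refine Submodule.add_mem _ (Submodule.add_mem _ ?_ ?_) ?_
        · refine Submodule.span_induction (p := fun x _ => x * (l'.map a).prod ∈ Δ ^ (wt w l + 1) ⊔ J)
            ?_ ?_ ?_ ?_ hy1
          · rintro x ⟨z, hz, rfl⟩
            have hz' : w z = E i * w i := hz
            have hwz : wt w (z :: l') = wt w l := by
              rw [hw, ← hz']
              simp [wt]
            have h3 := ihk (z :: l').length (by rw [List.length_cons]; omega) (z :: l') rfl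
              (by rw [hwz]; exact hl)
            rw [hwz] at h3
            simpa using h3
          · rw [zero_mul]
            exact Submodule.zero_mem _
          · intro x y _ _ hx hy
            rw [add_mul]
            exact Submodule.add_mem _ hx hy
          · intro c x _ hx
            rw [smul_mul_assoc]
            exact Submodule.smul_mem _ _ hx
        · apply Submodule.mem_sup_left
          have h4 : wt w l + 1 = (E i * w i + 1) + wt w l' := by omega
          rw [h4, pow_add]
          exact Submodule.mul_mem_mul hy2 hQ
        · apply Submodule.mem_sup_right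
          exact h.Jr (Submodule.mul_mem_mul hy3 Submodule.mem_top)
      have h5 := Submodule.add_mem _ hdiff hmain
      rwa [sub_add_cancel] at h5
  exact key l.length l rfl hl

end Pool.Agent.H24.CX
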