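import Pool.Agent.H24.CX.Defs

/-!
# CX.SsA : rules for self-similar actions
-/

set_option autoImplicit false

namespace Pool.Agent.H24.CX

namespace SSim

variable {H X : Type} [Group H] (A : SSim H X)

theorem sec_one (x : X) : A.sec 1 x = 1 := by
  have h := A.sec_mul 1 1 x
  rw [mul_one, A.act_one] at h
  exact (mul_eq_left.1 h.symm)

theorem word_nil (g : H) : A.word g [] = [] := by
  rw [word]

theorem word_cons (g : H) (x : X) (v : List X) : A.word g (x :: v) = A.act g x :: A.word (A.sec g x) v := by
  rw [word]

theorem secw_nil (g : H) : A.secw g [] = g := by
  rw [secw]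

theorem secw_cons (g : H) (x : X) (v : List X) : A.secw g (x :: v) = A.secw (A.sec g x) v := by
  rw [secw]

theorem word_one (v : List X) : A.word 1 v = v := by
  induction v with
  | nil => exact A.word_nil 1
  | cons x v ih => rw [word_cons, A.act_one, sec_one, ih]

theorem secw_one (v : List X) : A.secw 1 v = 1 := by
  induction v with
  | nil => exact A.secw_nil 1
  | cons x v ih => rw [secw_cons, sec_one, ih]

theorem word_mul (g h : H) (v : List X) : A.word (g * h) v = A.word g (A.word h v) := by
  induction v generalizing g h with
  | nil => rw [word_nil, word_nil, word_nil]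
  | cons x v ih => rw [word_cons, word_cons, word_cons, A.act_mul, A.sec_mul, ih]

theorem secw_mul (g h : H) (v : List X) : A.secw (g * h) v = A.secw g (A.word h v) * A.secw h v := by
  induction v generalizing g h with
  | nil => rw [word_nil, secw_nil, secw_nil, secw_nil]
  | cons x v ih => rw [word_cons, secw_cons, secw_cons, secw_cons, A.sec_mul, ih]

theorem word_append (g : H) (v t : List X) : A.word g (v ++ t) = A.word g v ++ A.word (A.secw g v) t := by
  induction v generalizing g with
  | nil => rw [word_nil, secw_nil]; rfl
  | cons x v ih => rw [List.cons_append, word_cons, word_cons, secw_cons, ih]; rfl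

theorem secw_append (g : H) (v t : List X) : A.secw g (v ++ t) = A.secw (A.secw g v) t := by
  induction v generalizing g with
  | nil => rw [secw_nil]; rfl
  | cons x v ih => rw [List.cons_append, secw_cons, secw_cons, ih]

theorem length_word (g : H) (v : List X) : (A.word g v).length = v.length := by
  induction v generalizing g with
  | nil => rw [word_nil]
  | cons x v ih => rw [word_cons, List.length_cons, List.length_cons, ih]

theorem word_inv_word (g : H) (v : List X) : A.word g⁻¹ (A.word g v) = v := by
  rw [← word_mul, inv_mul_cancel, word_one]

end SSim

end Pool.Agent.H24.CX
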