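import Pool.Agent.H24.CX.SsA

/-!
# CX.SsF : contraction

PROOF. Induction on `i` for all `j`, `l`. `i = 0`: `v = []` and `l.prod` is `1` or an element of `N j`. `i + 1`: `v = v₁ ++ v₂` with `v₁.length = k`, `v₂.length = k * i`. Claim (strong induction on the length of `l`, two elements at a time): for every list `l` of elements of `N j` and every `v₁` of length `k` there is a list `l'` of elements of `N (j + 1)` with
`secw l.prod v₁ = l'.prod` and `2 * l'.length ≤ l.length + 1`: `l = []`: `[]` (`secw_one`); `l = [g]`: `[secw (g * 1) v₁]`; `l = g :: h :: l₀`: `secw (g * h * l₀.prod) v₁ = secw (g * h) (word l₀.prod v₁) * secw l₀.prod v₁` (`secw_mul`), the first factor is in `N (j + 1)` (`length_word`).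
If `l.length ≤ 2 ^ (i + 1)` then `l'.length ≤ 2 ^ i` (`2 * l'.length ≤ 2 ^ (i + 1) + 1`, parity). `secw_append` and the induction hypothesis for `j + 1`, `l'`, `v₂` (`j + 1 + i = j + (i + 1)`).
-/

set_option autoImplicit false

namespace Pool.Agent.H24.CX

variable {H X : Type} [Group H] (A : SSim H X)

private theorem ssF_step {k : ℕ} {N : ℕ → Set H} (h1 : ∀ j, 1 ∈ N j)
    (h2 : ∀ j, ∀ g ∈ N j, ∀ h ∈ N j, ∀ v : List X, v.length = k → A.secw (g * h) v ∈ N (j + 1))
    (j : ℕ) : ∀ (n : ℕ) (l : List H), l.length ≤ n → (∀ x ∈ l, x ∈ N j) → ∀ v : List X,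
      v.length = k → ∃ l' : List H, (∀ x ∈ l', x ∈ N (j + 1)) ∧ 2 * l'.length ≤ l.length + 1 ∧
        A.secw l.prod v = l'.prod := by
  intro n
  induction n using Nat.strong_induction_on with
  | _ n ih =>
    intro l hl hN v hv
    match l, hl, hN with
    | [], _, _ =>
      refine ⟨[], by simp, by simp, ?_⟩
      rw [List.prod_nil, A.secw_one]
    | [g], _, hN =>
      refine ⟨[A.secw (g * 1) v], ?_, by simp, ?_⟩
      · intro x hx
        rw [List.mem_singleton] at hx
        rw [hx]
        exact h2 j g (hN g (by simp)) 1 (h1 j) v hv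
      · rw [List.prod_singleton, List.prod_singleton, mul_one]
    | g :: h :: l₀, hl, hN =>
      have hlen : (g :: h :: l₀).length = l₀.length + 2 := by simp
      obtain ⟨l', h3, h4, h5⟩ := ih (n - 2) (by omega) l₀ (by omega)
        (fun x hx => hN x (by simp [hx])) v hv
      refine ⟨A.secw (g * h) (A.word l₀.prod v) :: l', ?_, ?_, ?_⟩
      · intro x hx
        rcases List.mem_cons.1 hx with hx | hx
        · rw [hx]
          exact h2 j g (hN g (by simp)) h (hN h (by simp)) _ (by rw [A.length_word, hv])
        · exact h3 x hx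
      · rw [List.length_cons, hlen]
        omega
      · rw [List.prod_cons, List.prod_cons, List.prod_cons, ← mul_assoc, A.secw_mul, h5]

theorem contract {k : ℕ} {N : ℕ → Set H} (h1 : ∀ j, 1 ∈ N j)
    (h2 : ∀ j, ∀ g ∈ N j, ∀ h ∈ N j, ∀ v : List X, v.length = k → A.secw (g * h) v ∈ N (j + 1)) (i j : ℕ)
    (l : List H) (hl : l.length ≤ 2 ^ i) (hN : ∀ x ∈ l, x ∈ N j) (v : List X) (hv : v.length = k * i) :
    A.secw l.prod v ∈ N (j + i) := by
  induction i generalizing j l v with
  | zero =>
    rw [mul_zero, List.length_eq_zero_iff] at hv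
    subst hv
    rw [A.secw_nil, add_zero]
    match l, hl, hN with
    | [], _, _ => rw [List.prod_nil]; exact h1 j
    | [g], _, hN => rw [List.prod_singleton]; exact hN g (by simp)
    | g :: h :: l₀, hl, _ => simp at hl
  | succ i ih =>
    have e : v = v.take k ++ v.drop k := (List.take_append_drop k v).symm
    have hk : (v.take k).length = k := by
      rw [List.length_take, hv]
      exact min_eq_left (by rw [mul_add, mul_one]; omega)
    have hd : (v.drop k).length = k * i := by
      rw [List.length_drop, hv, mul_add, mul_one]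
      omega
    obtain ⟨l', h3, h4, h5⟩ := ssF_step A h1 h2 j l.length l le_rfl hN (v.take k) hk
    rw [e, A.secw_append, h5]
    have h6 := ih (j + 1) l' (by rw [pow_succ] at hl; omega) h3 (v.drop k) hd
    have e2 : j + (i + 1) = j + 1 + i := by omega
    rw [e2]
    exact h6

end Pool.Agent.H24.CX
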