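import Pool.Agent.H24.CX.CmB
import Pool.Agent.H24.CX.Gen
import Pool.Agent.H24.CX.PbC

/-!
# CX.Stp : if `D_i = D_(i+1)` then the powers of the augmentation ideal stop

PROOF. `pow_le_pow` for `J = ⊥` and the letters `x ∈ ι = {x : ℕ × G // x.1 ≤ i ∧ Cm S x.1 x.2}` (finite: `Cm_finite`, union over `x.1 ≤ i`), `a x = u p x.1.2`, `w x = x.1.1`, `E x = p ^ (e + 1)` with `x.1.2 ^ p ^ e = 1` (`hG`).
`pos`, `mem`: `Cm_pos`, `Cm_InD`. `two`: `p ^ (e + 1) ≥ 2`. `pow`: `u c ^ p ^ (e + 1) = u (c ^ p ^ (e + 1)) = u 1 = 0` (`u_pow`, `u_one`). `swap`: for `c, c'` of weights `w, w'`: `u c u c' - u c' u c = u (cm c c') + d`, `d ∈ Δ ^ (w + w' + 1)` (`u_cm_mod`), and `cm c c'` is the letter `(w + w', cm c c')` if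
`w + w' ≤ i`, otherwise `u (cm c c') ∈ Δ ^ (w + w' + 1)` (`Cm_small`). The hypothesis `h1` of `pow_le_pow`: `aug_gen` (elements of `S` are letters of weight `1 ≤ i`). `Δr`, `Δl`: `aug_mul_top`, `top_mul_aug`. `n₀ = ∑ (E x - 1) * w x + 1`.
-/

set_option autoImplicit false

namespace Pool.Agent.H24.CX

open Pool.Agent.H67.PG

variable {p : ℕ} [Fact p.Prime] {G : Type} [Group G]

private abbrev Stp_ι (S : Set G) (i : ℕ) : Type := {x : ℕ × G // x.1 ≤ i ∧ Cm S x.1 x.2}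

private theorem Stp_fin {S : Set G} (hSf : S.Finite) (i : ℕ) : Finite (Stp_ι S i) := by
  have h : {x : ℕ × G | x.1 ≤ i ∧ Cm S x.1 x.2}.Finite := by
    have h2 : (⋃ w ∈ ((Finset.range (i + 1) : Finset ℕ) : Set ℕ),
        (fun c : G => ((w, c) : ℕ × G)) '' {c : G | Cm S w c}).Finite :=
      Set.Finite.biUnion (Finset.finite_toSet _) (fun w _ => (Cm_finite hSf w).image _)
    refine h2.subset ?_
    rintro ⟨w, c⟩ ⟨h3, h4⟩
    refine Set.mem_biUnion (x := w) ?_ ⟨c, h4, rfl⟩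
    rw [Finset.mem_coe, Finset.mem_range]
    exact Nat.lt_succ_of_le h3
  exact h.to_subtype

theorem stop {S : Set G} (hSf : S.Finite) (hS : Subgroup.closure S = ⊤) (hG : IsPGroup p G) {i : ℕ}
    (h1 : 1 ≤ i) (hi : ∀ g : G, InD p i g → InD p (i + 1) g) :
    ∃ n₀, 1 ≤ n₀ ∧ ∀ t, 1 ≤ t → Aug p G ^ n₀ ≤ Aug p G ^ t := by
  classical
  have := Stp_fin hSf i
  have : Fintype (Stp_ι S i) := Fintype.ofFinite _
  choose e he using hG
  have hp : 2 ≤ p := (Fact.out : p.Prime).two_le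
  let a : Stp_ι S i → MonoidAlgebra (ZMod p) G := fun x => u p x.1.2
  let w : Stp_ι S i → ℕ := fun x => x.1.1
  let E : Stp_ι S i → ℕ := fun x => p ^ (e x.1.2 + 1)
  have hstr : Strs (Aug p G) (⊥ : Submodule (ZMod p) (MonoidAlgebra (ZMod p) G)) a w E := by
    refine ⟨aug_mul_top, top_mul_aug, ?_, ?_, ?_, ?_, ?_, ?_, ?_⟩
    · rw [Submodule.bot_mul]
    · rw [Submodule.mul_bot]
    · intro x
      exact Cm_pos x.2.2
    · intro x
      exact Cm_InD x.2.2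
    · intro x
      show 2 ≤ p ^ (e x.1.2 + 1)
      calc 2 ≤ p := hp
        _ = p ^ 1 := (pow_one p).symm
        _ ≤ p ^ (e x.1.2 + 1) := Nat.pow_le_pow_right (by omega) (by omega)
    · intro x y
      show u p x.1.2 * u p y.1.2 - u p y.1.2 * u p x.1.2 ∈ _
      have h3 := u_cm_mod (Cm_pos x.2.2) (Cm_InD (p := p) x.2.2) (Cm_InD (p := p) y.2.2)
      have h4 : u p x.1.2 * u p y.1.2 - u p y.1.2 * u p x.1.2 = u p (cm x.1.2 y.1.2) +
          (u p x.1.2 * u p y.1.2 - u p y.1.2 * u p x.1.2 - u p (cm x.1.2 y.1.2)) := by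
        abel
      rw [h4]
      refine Submodule.mem_sup_left ?_
      refine Submodule.add_mem _ ?_ (Submodule.mem_sup_right h3)
      by_cases h5 : x.1.1 + y.1.1 ≤ i
      · refine Submodule.mem_sup_left (Submodule.subset_span ?_)
        exact ⟨⟨(x.1.1 + y.1.1, cm x.1.2 y.1.2), h5, Cm.comm x.2.2 y.2.2⟩, rfl, rfl⟩
      · refine Submodule.mem_sup_right ?_
        have h7 : i ≤ x.1.1 + y.1.1 := le_of_lt (not_le.1 h5)
        exact Cm_small h1 hi (Cm.comm x.2.2 y.2.2) h7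
    · intro x
      show u p x.1.2 ^ p ^ (e x.1.2 + 1) ∈ _
      have h3 : u p x.1.2 ^ p ^ (e x.1.2 + 1) = 0 := by
        rw [u_pow, pow_succ, pow_mul, he, one_pow, u_one]
      rw [h3]
      exact Submodule.zero_mem _
  have hgen : Aug p G ≤ Submodule.span (ZMod p) (a '' {x | w x = 1}) ⊔ Aug p G ^ 2 ⊔
      (⊥ : Submodule (ZMod p) (MonoidAlgebra (ZMod p) G)) := by
    rw [sup_bot_eq]
    refine (aug_gen hS).trans (sup_le_sup_right (Submodule.span_mono ?_) _)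
    rintro _ ⟨s, hs, rfl⟩
    exact ⟨⟨(1, s), h1, Cm.base hs⟩, rfl, rfl⟩
  refine ⟨∑ x, (E x - 1) * w x + 1, Nat.le_add_left 1 _, ?_⟩
  intro t ht
  have h6 := pow_le_pow hstr hgen (Nat.lt_succ_self (∑ x, (E x - 1) * w x)) ht
  rw [sup_bot_eq] at h6
  exact h6

end Pool.Agent.H24.CX
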