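import Pool.Agent.H24.CX.Defs

/-!
# CX.Ug : rules for `g - 1`
-/

set_option autoImplicit false
set_option linter.unusedSectionVars false

namespace Pool.Agent.H24.CX

open Pool.Agent.H67.PG

variable {p : ℕ} {G : Type} [Group G]

theorem aug_anti {m n : ℕ} (hm : 1 ≤ m) (h : m ≤ n) : Aug p G ^ n ≤ Aug p G ^ m := aug_pow_le hm h

theorem mul_mem_aug {n : ℕ} (hn : 1 ≤ n) {x : MonoidAlgebra (ZMod p) G} (hx : x ∈ Aug p G ^ n)
    (y : MonoidAlgebra (ZMod p) G) : x * y ∈ Aug p G ^ n :=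
  aug_pow_mul_top hn (Submodule.mul_mem_mul hx trivial)

theorem mul_mem_aug' {n : ℕ} (hn : 1 ≤ n) {x : MonoidAlgebra (ZMod p) G} (hx : x ∈ Aug p G ^ n)
    (y : MonoidAlgebra (ZMod p) G) : y * x ∈ Aug p G ^ n :=
  top_mul_aug_pow hn (Submodule.mul_mem_mul trivial hx)

theorem mul_mem_add {m n : ℕ} {x y : MonoidAlgebra (ZMod p) G} (hx : x ∈ Aug p G ^ m)
    (hy : y ∈ Aug p G ^ n) : x * y ∈ Aug p G ^ (m + n) := by
  rw [pow_add]
  exact Submodule.mul_mem_mul hx hy

theorem u_mul (g h : G) : u p (g * h) = u p g + u p h + u p g * u p h := by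
  simp only [u, map_mul]
  noncomm_ring

theorem InD_mono {m n : ℕ} (hm : 1 ≤ m) (h : m ≤ n) {g : G} (hg : InD p n g) : InD p m g :=
  aug_anti hm h hg

theorem InD_mul {n : ℕ} (hn : 1 ≤ n) {g h : G} (hg : InD p n g) (hh : InD p n h) : InD p n (g * h) := by
  rw [InD, u_mul]
  exact add_mem (add_mem hg hh) (mul_mem_aug hn hg _)

theorem u_mul_mod {n : ℕ} (hn : 1 ≤ n) {g h : G} (hg : InD p n g) (hh : InD p n h) :
    u p (g * h) - (u p g + u p h) ∈ Aug p G ^ (n + 1) := by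
  rw [u_mul, add_sub_cancel_left]
  exact aug_anti (by omega) (by omega) (mul_mem_add hg hh)

theorem u_inv_mod {n : ℕ} (hn : 1 ≤ n) {g : G} (hg : InD p n g) :
    u p g⁻¹ + u p g ∈ Aug p G ^ (n + 1) := by
  have h1 : InD p n g⁻¹ := (dimSub p G n hn).inv_mem hg
  have h2 := u_mul_mod hn h1 hg
  rw [inv_mul_cancel, u_one, zero_sub, neg_mem_iff] at h2
  exact h2

theorem u_cm (g h : G) : u p g * u p h - u p h * u p g =
    u p (cm g h) * MonoidAlgebra.of (ZMod p) G (h * g) := by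
  have h1 : MonoidAlgebra.of (ZMod p) G (cm g h) * MonoidAlgebra.of (ZMod p) G (h * g) =
      MonoidAlgebra.of (ZMod p) G g * MonoidAlgebra.of (ZMod p) G h := by
    rw [← map_mul, ← map_mul]
    congr 1
    simp [cm, mul_assoc]
  have h2 : u p (cm g h) * MonoidAlgebra.of (ZMod p) G (h * g) =
      MonoidAlgebra.of (ZMod p) G g * MonoidAlgebra.of (ZMod p) G h -
        MonoidAlgebra.of (ZMod p) G h * MonoidAlgebra.of (ZMod p) G g := by
    rw [u, sub_mul, h1, one_mul, map_mul]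
  rw [h2, u, u]
  noncomm_ring

theorem InD_cm {m n : ℕ} (hm : 1 ≤ m) {g h : G} (hg : InD p m g) (hh : InD p n h) :
    InD p (m + n) (cm g h) := by
  have h1 : u p g * u p h - u p h * u p g ∈ Aug p G ^ (m + n) := by
    refine sub_mem (mul_mem_add hg hh) ?_
    rw [add_comm m n]
    exact mul_mem_add hh hg
  have h2 : u p (cm g h) = (u p g * u p h - u p h * u p g) *
      MonoidAlgebra.of (ZMod p) G ((h * g)⁻¹) := by
    rw [u_cm, mul_assoc, ← map_mul, mul_inv_cancel, map_one, mul_one]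
  rw [InD, h2]
  exact mul_mem_aug (by omega) h1 _

theorem u_cm_mod {m n : ℕ} (hm : 1 ≤ m) {g h : G} (hg : InD p m g) (hh : InD p n h) :
    u p g * u p h - u p h * u p g - u p (cm g h) ∈ Aug p G ^ (m + n + 1) := by
  have h1 : u p g * u p h - u p h * u p g - u p (cm g h) = u p (cm g h) * u p (h * g) := by
    rw [u_cm, of_eq, mul_add, mul_one, add_sub_cancel_right]
  rw [h1]
  refine mul_mem_add (InD_cm hm hg hh) ?_
  rw [pow_one]
  exact u_mem _

theorem u_pow [Fact p.Prime] (g : G) (e : ℕ) : u p g ^ p ^ e = u p (g ^ p ^ e) := by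
  have hc : CharP (MonoidAlgebra (ZMod p) G) p :=
    charP_of_injective_algebraMap (algebraMap (ZMod p) (MonoidAlgebra (ZMod p) G)).injective p
  rw [u, u, sub_pow_char_pow_of_commute _ _ (Commute.one_right _), one_pow, map_pow]

theorem InD_pow [Fact p.Prime] {n : ℕ} {g : G} (hg : InD p n g) : InD p (p * n) (g ^ p) := by
  have h := u_pow (p := p) g 1
  rw [pow_one] at h
  rw [InD, ← h, mul_comm, pow_mul]
  exact Submodule.pow_mem_pow _ hg p

theorem Dn_normal (n : ℕ) : (Dn p G n).Normal := by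
  constructor
  intro g hg h
  have h1 : u p (h * g * h⁻¹) =
      MonoidAlgebra.of (ZMod p) G h * (u p g * MonoidAlgebra.of (ZMod p) G h⁻¹) := by
    rw [u, u, sub_mul, mul_sub, one_mul, ← map_mul, ← map_mul, ← map_mul, mul_inv_cancel, map_one,
      mul_assoc]
  show u p (h * g * h⁻¹) ∈ Aug p G ^ (n + 1)
  rw [h1]
  exact mul_mem_aug' (by omega) (mul_mem_aug (by omega) hg _) _

theorem Dn_zero : Dn p G 0 = ⊤ := by
  rw [eq_top_iff]
  intro g _
  exact InD_one g

end Pool.Agent.H24.CX
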